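import Pool.Agent.X126.SU.Main

/-!
# Rajchman measures
-/

set_option autoImplicit false

open MeasureTheory Filter Topology Set

namespace Pool.Agent.X126.SU

open Pool.Agent.Y249.SU

lemma fourier_eq_E (n : ℤ) (β : ℝ) : fourier n ((β : ℝ) : UnitAddCircle) = E n β := by
  rw [fourier_coe_apply, E]
  congr 1
  push_cast
  ring

variable {μ : Measure UnitAddCircle} [IsFiniteMeasure μ]

lemma integrable_fourier (n : ℤ) (C : Set UnitAddCircle) :
    Integrable (fun x => (fourier n x : ℂ)) (μ.restrict C) := by
  refine Integrable.mono' (g := fun _ => (1 : ℝ)) (integrable_const _) ?_ ?_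
  · exact (map_continuous (fourier n)).aestronglyMeasurable
  · filter_upwards with x
    simp

/-- Restrictions of Rajchman measures are Rajchman measures. -/
theorem restrict_raj (hμ : Tendsto (fun n : ℤ => ∫ x, (fourier n x : ℂ) ∂μ) cofinite (𝓝 0))
    {C : Set UnitAddCircle} (hC : MeasurableSet C) :
    Tendsto (fun n : ℤ => ∫ x in C, (fourier n x : ℂ) ∂μ) cofinite (𝓝 0) := by
  -- trigonometric polynomials
  have hpoly : ∀ p ∈ Submodule.span ℂ (range (fourier : ℤ → C(UnitAddCircle, ℂ))),
      Tendsto (fun n : ℤ => ∫ x, p x * (fourier n x : ℂ) ∂μ) cofinite (𝓝 0) := by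
    intro p hp
    have hint : ∀ (p : C(UnitAddCircle, ℂ)) (n : ℤ),
        Integrable (fun x => p x * (fourier n x : ℂ)) μ := by
      intro p n
      refine Integrable.mono' (g := fun _ => ‖p‖) (integrable_const _) ?_ ?_
      · exact ((map_continuous p).mul (map_continuous (fourier n))).aestronglyMeasurable
      · filter_upwards with x
        rw [norm_mul]
        have : ‖(fourier n x : ℂ)‖ = 1 := by simp
        rw [this, mul_one]
        exact p.norm_coe_le_norm x
    induction hp using Submodule.span_induction with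
    | mem p hp =>
      obtain ⟨m, rfl⟩ := hp
      have h1 : ∀ n : ℤ, ∫ x, (fourier m x : ℂ) * (fourier n x : ℂ) ∂μ =
          ∫ x, (fourier (m + n) x : ℂ) ∂μ := by
        intro n
        congr 1
        ext x
        rw [fourier_add]
      simp only [h1]
      exact hμ.comp (add_right_injective m).tendsto_cofinite
    | zero => simp
    | add p q _ _ hp hq =>
      have := hp.add hq
      rw [add_zero] at this
      refine this.congr fun n => ?_
      rw [← integral_add (hint p n) (hint q n)]
      congr 1
      ext x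
      simp only [ContinuousMap.add_apply]
      ring
    | smul a p _ hp =>
      have := hp.const_mul a
      rw [mul_zero] at this
      refine this.congr fun n => ?_
      rw [← integral_const_mul]
      congr 1
      ext x
      simp only [ContinuousMap.smul_apply, smul_eq_mul]
      ring
  rw [Metric.tendsto_nhds]
  intro ε hε
  set V : ℝ := μ.real univ with hV
  have hV0 : 0 ≤ V := measureReal_nonneg
  have hind : Integrable (C.indicator (fun _ => (1 : ℂ))) μ :=
    (integrable_const (1 : ℂ)).indicator hC
  obtain ⟨g, hg1, hg2⟩ := hind.exists_boundedContinuous_integral_sub_le (show 0 < ε / 4 by positivity)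
  set g' : C(UnitAddCircle, ℂ) := g.toContinuousMap with hg'
  have hmem : g' ∈ (Submodule.span ℂ (range (fourier : ℤ → C(UnitAddCircle, ℂ)))).topologicalClosure := by
    rw [span_fourier_closure_eq_top]
    exact Submodule.mem_top
  rw [← SetLike.mem_coe, Submodule.topologicalClosure_coe, Metric.mem_closure_iff] at hmem
  obtain ⟨p, hp, hgp⟩ := hmem (ε / (4 * (V + 1))) (by positivity)
  have hev := (hpoly p hp)
  rw [Metric.tendsto_nhds] at hev
  filter_upwards [hev (ε / 4) (by positivity)] with n hn
  rw [dist_zero_right] at hn ⊢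
  have hnorm : ∀ x : UnitAddCircle, ‖(fourier n x : ℂ)‖ = 1 := fun x => by simp
  have hi1 : Integrable (fun x => (C.indicator (fun _ => (1 : ℂ)) x - g x) * (fourier n x : ℂ)) μ := by
    refine Integrable.mono (hind.sub hg2) ?_ ?_
    · exact (hind.sub hg2).aestronglyMeasurable.mul
        (map_continuous (fourier n)).aestronglyMeasurable
    · filter_upwards with x
      rw [norm_mul, hnorm, mul_one]
      exact le_refl _
  have hi2 : Integrable (fun x => (g x - p x) * (fourier n x : ℂ)) μ := by
    refine Integrable.mono' (g := fun _ => ‖g' - p‖) (integrable_const _) ?_ ?_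
    · exact ((g.continuous.sub (map_continuous p)).mul
        (map_continuous (fourier n))).aestronglyMeasurable
    · filter_upwards with x
      rw [norm_mul, hnorm, mul_one]
      exact (g' - p).norm_coe_le_norm x
  have hi3 : Integrable (fun x => p x * (fourier n x : ℂ)) μ := by
    refine Integrable.mono' (g := fun _ => ‖p‖) (integrable_const _) ?_ ?_
    · exact ((map_continuous p).mul (map_continuous (fourier n))).aestronglyMeasurable
    · filter_upwards with x
      rw [norm_mul, hnorm, mul_one]
      exact p.norm_coe_le_norm x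
  have hsplit : ∫ x in C, (fourier n x : ℂ) ∂μ =
      (∫ x, (C.indicator (fun _ => (1 : ℂ)) x - g x) * (fourier n x : ℂ) ∂μ) +
      (∫ x, (g x - p x) * (fourier n x : ℂ) ∂μ) + ∫ x, p x * (fourier n x : ℂ) ∂μ := by
    have e1 := integral_add hi1 hi2
    have hi12 : Integrable (fun x => (C.indicator (fun _ => (1 : ℂ)) x - g x) * (fourier n x : ℂ) +
        (g x - p x) * (fourier n x : ℂ)) μ := hi1.add hi2
    have e2 := integral_add hi12 hi3
    rw [← e1, ← e2, ← integral_indicator hC]
    refine integral_congr_ae (Eventually.of_forall fun x => ?_)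
    by_cases hx : x ∈ C
    · simp only [indicator_of_mem hx]
      ring
    · simp only [indicator_of_notMem hx]
      ring
  rw [hsplit]
  have b1 : ‖∫ x, (C.indicator (fun _ => (1 : ℂ)) x - g x) * (fourier n x : ℂ) ∂μ‖ ≤ ε / 4 := by
    refine (norm_integral_le_integral_norm _).trans ?_
    simp only [norm_mul, hnorm, mul_one]
    exact hg1
  have b2 : ‖∫ x, (g x - p x) * (fourier n x : ℂ) ∂μ‖ ≤ ε / 4 := by
    have h1 : ‖∫ x, (g x - p x) * (fourier n x : ℂ) ∂μ‖ ≤ ε / (4 * (V + 1)) * V := by
      refine norm_integral_le_of_norm_le_const (μ := μ) ?_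
      filter_upwards with x
      rw [norm_mul, hnorm, mul_one]
      have h2 := (g' - p).norm_coe_le_norm x
      rw [dist_eq_norm] at hgp
      exact h2.trans hgp.le
    refine h1.trans ?_
    rw [div_mul_eq_mul_div, div_le_iff₀ (by positivity)]
    nlinarith
  calc ‖(∫ x, (C.indicator (fun _ => (1 : ℂ)) x - g x) * (fourier n x : ℂ) ∂μ) +
      (∫ x, (g x - p x) * (fourier n x : ℂ) ∂μ) + ∫ x, p x * (fourier n x : ℂ) ∂μ‖ ≤
      ‖∫ x, (C.indicator (fun _ => (1 : ℂ)) x - g x) * (fourier n x : ℂ) ∂μ‖ +
      ‖∫ x, (g x - p x) * (fourier n x : ℂ) ∂μ‖ + ‖∫ x, p x * (fourier n x : ℂ) ∂μ‖ :=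
        norm_add₃_le
    _ < ε := by linarith

/-- Rajchman measures do not charge the basic sets. -/
theorem raj_null (hμ : Tendsto (fun n : ℤ => ∫ x, (fourier n x : ℂ) ∂μ) cofinite (𝓝 0))
    {C : Set UnitAddCircle} (hC : MeasurableSet C) {M : ℕ → ℤ} (hM : Tendsto M atTop atTop)
    {γ : ℤ → ℂ} (hγ : Summable fun j : ℤ => (1 + |(j : ℝ)|) * ‖γ j‖) (hγ0 : γ 0 ≠ 0)
    (hK : ∀ x : ℝ, (x : UnitAddCircle) ∈ C → ∀ k, lam γ (M k * x) = 0) : μ C = 0 := by
  have hr := restrict_raj hμ hC
  have hnorm : ∀ (n : ℤ) (x : UnitAddCircle), ‖(fourier n x : ℂ)‖ = 1 := fun n x => by simp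
  have hzero : ∀ k, ∑' j : ℤ, γ j * ∫ x in C, (fourier (j * M k) x : ℂ) ∂μ = 0 := by
    intro k
    have h1 : ∀ j : ℤ, γ j * ∫ x in C, (fourier (j * M k) x : ℂ) ∂μ =
        ∫ x in C, γ j * (fourier (j * M k) x : ℂ) ∂μ := by
      intro j
      rw [integral_const_mul]
    simp only [h1]
    rw [integral_tsum_of_summable_integral_norm]
    · rw [setIntegral_congr_fun (g := fun _ => (0 : ℂ)) hC]
      · simp
      · intro x hx
        obtain ⟨y, rfl⟩ := QuotientAddGroup.mk_surjective x
        have h2 := hK y hx k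
        unfold lam at h2
        simp only
        rw [← h2]
        apply tsum_congr
        intro j
        congr 1
        have := fourier_eq_E (j * M k) y
        rw [E_mul] at this
        exact this
    · intro j
      exact (integrable_fourier _ _).const_mul _
    · have h2 : ∀ j : ℤ, ∫ x in C, ‖γ j * (fourier (j * M k) x : ℂ)‖ ∂μ = ‖γ j‖ * μ.real C := by
        intro j
        simp only [norm_mul, hnorm, mul_one]
        rw [setIntegral_const, smul_eq_mul, mul_comm]
      simp only [h2]
      exact (summable_norm_gamma hγ).mul_right _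
  have hlim : Tendsto (fun k => ∑' j : ℤ, γ j * ∫ x in C, (fourier (j * M k) x : ℂ) ∂μ) atTop
      (𝓝 (∑' j : ℤ, if j = 0 then γ 0 * (μ.real C : ℂ) else 0)) := by
    apply tendsto_tsum_of_dominated_convergence
      (bound := fun j : ℤ => ‖γ j‖ * μ.real C) ((summable_norm_gamma hγ).mul_right _)
    · intro j
      split_ifs with hj
      · subst hj
        simp only [zero_mul, fourier_zero]
        rw [setIntegral_const]
        simp
      · have h3 : Tendsto (fun k => ∫ x in C, (fourier (j * M k) x : ℂ) ∂μ) atTop (𝓝 0) := by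
          apply hr.comp
          rw [Int.cofinite_eq]
          rcases lt_or_gt_of_ne hj with h | h
          · apply Tendsto.mono_right _ le_sup_left
            rw [tendsto_atBot]
            intro b
            filter_upwards [hM.eventually_ge_atTop |b|] with k hk
            have := neg_abs_le b
            nlinarith [abs_nonneg b]
          · apply Tendsto.mono_right _ le_sup_right
            rw [tendsto_atTop]
            intro b
            filter_upwards [hM.eventually_ge_atTop |b|] with k hk
            have := le_abs_self b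
            nlinarith [abs_nonneg b]
        simpa using h3.const_mul (γ j)
    · refine Eventually.of_forall fun k j => ?_
      rw [norm_mul]
      apply mul_le_mul_of_nonneg_left _ (norm_nonneg _)
      have := norm_setIntegral_le_of_norm_le_const (μ := μ) (s := C) (C := 1)
        (f := fun x => (fourier (j * M k) x : ℂ)) (measure_lt_top μ C) (fun x _ => by rw [hnorm])
      simpa using this
  rw [tsum_ite_eq] at hlim
  simp only [hzero] at hlim
  have h5 := tendsto_nhds_unique tendsto_const_nhds hlim
  have h6 : μ.real C = 0 := by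
    rcases mul_eq_zero.1 h5.symm with h | h
    · exact absurd h hγ0
    · exact_mod_cast h
  rwa [measureReal_eq_zero_iff] at h6

/-- the sets on the circle -/
def CS (n : ℕ → ℕ) (a : ℚ) (l K : ℕ) : Set UnitAddCircle :=
  {x | ∀ j, K ≤ j → 1 / ((l : ℝ) + 3) ≤ ‖n j • x - ((a : ℝ) : UnitAddCircle)‖}

lemma CS_coe (n : ℕ → ℕ) (a : ℚ) (l K : ℕ) (β : ℝ) : (β : UnitAddCircle) ∈ CS n a l K ↔
    β ∈ HS n a l K := by
  unfold CS HS
  simp only [Set.mem_ofPred_eq]
  have h : ∀ j, (n j • (β : UnitAddCircle) - ((a : ℝ) : UnitAddCircle)) =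
      ((n j * β - a : ℝ) : UnitAddCircle) := by
    intro j
    rw [← AddCircle.coe_nsmul, ← AddCircle.coe_sub, nsmul_eq_mul]
  simp only [h]

lemma isClosed_CS (n : ℕ → ℕ) (a : ℚ) (l K : ℕ) : IsClosed (CS n a l K) := by
  have : CS n a l K = ⋂ j, ⋂ _ : K ≤ j,
      {x : UnitAddCircle | 1 / ((l : ℝ) + 3) ≤ ‖n j • x - ((a : ℝ) : UnitAddCircle)‖} := by
    ext x
    simp [CS]
  rw [this]
  refine isClosed_iInter fun j => isClosed_iInter fun _ => ?_
  exact isClosed_le continuous_const (by fun_prop)

/-- Almost every point of every Rajchman measure is good. -/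
theorem main_raj (α γ : ℕ → ℝ) (h : ∀ i, Irrational (α i) ∨ γ i = 0)
    (hμ : Tendsto (fun n : ℤ => ∫ x, (fourier n x : ℂ) ∂μ) cofinite (𝓝 0)) :
    ∀ᵐ x ∂μ, ∀ β : ℝ, (β : UnitAddCircle) = x → ∀ i, Good (α i) (γ i) β := by
  have hseq := fun i => exists_seq (α i) (γ i)
  choose ν hν1 hν2 hν3 using hseq
  have hnull : ∀ i a l K, μ (CS (ν i) a l K) = 0 := by
    intro i a l K
    have hr : (0 : ℝ) < 1 / ((l : ℝ) + 3) := by positivity
    obtain ⟨M, γ', hM, h1, h2, h3⟩ := mult_HS (hν1 i) a l K
    exact raj_null hμ (isClosed_CS _ _ _ _).measurableSet hM h1 h2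
      (fun x hx k => h3 x ((CS_coe _ _ _ _ x).1 hx) k)
  have hae : ∀ᵐ x ∂μ, ∀ i a l K, x ∉ CS (ν i) a l K := by
    simp only [ae_all_iff]
    intro i a l K
    exact measure_eq_zero_iff_ae_notMem.1 (hnull i a l K)
  filter_upwards [hae] with x hx β hβ i
  apply good_of_notMem (h i) (hν1 i) (hν2 i) (hν3 i)
  intro a l K hmem
  apply hx i a l K
  rw [← hβ, CS_coe]
  exact hmem

end Pool.Agent.X126.SU
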