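import Pool.Agent.X126.SU.Vallee

/-!
# Countable unions of closed sets with multipliers are sets of uniqueness
-/

set_option autoImplicit false

open MeasureTheory Filter Topology Set

namespace Pool.Agent.X126.SU

open Pool.Agent.Y249.SU

/-- The Cantor-Lebesgue theorem. -/
theorem cantor_lebesgue_ae {c : ℤ → ℂ}
    (h : ∀ᵐ x : ℝ, Tendsto (fun N : ℕ => S c N x) atTop (𝓝 0)) :
    Tendsto (D c) atTop (𝓝 0) := by
  rw [Metric.tendsto_atTop']
  intro ε hε
  set a : ℝ := 0 with ha
  set b : ℝ := 1 with hb
  have hab : a < b := by rw [ha, hb]; exact one_pos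
  have hba : 0 < b - a := by linarith
  -- the normalised terms
  set G : ℕ → ℝ → ℝ := fun n x => if ε ≤ D c n then ‖A c n x‖ ^ 2 / D c n ^ 2 else 0 with hG
  have hlim : Tendsto (fun n => ∫ x in a..b, G n x) atTop (𝓝 (∫ x in a..b, (0 : ℝ))) := by
    apply intervalIntegral.tendsto_integral_filter_of_dominated_convergence (fun _ => 4)
    · refine Eventually.of_forall fun n => ?_
      simp only [hG]
      split_ifs
      · have := continuous_A c n
        apply Continuous.aestronglyMeasurable
        fun_prop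
      · exact aestronglyMeasurable_const
    · refine Eventually.of_forall fun n => Eventually.of_forall fun x _ => ?_
      simp only [hG]
      split_ifs with h1
      · have hD : 0 < D c n := lt_of_lt_of_le hε h1
        rw [Real.norm_of_nonneg (by positivity), div_le_iff₀ (by positivity)]
        have := norm_A_le_D c n x
        nlinarith [norm_nonneg (A c n x)]
      · simp
    · exact _root_.intervalIntegrable_const
    · filter_upwards [h] with x hxc hx
      have hA := tendsto_A hxc
      have hA2 : Tendsto (fun n => ‖A c n x‖ ^ 2 / ε ^ 2) atTop (𝓝 0) := by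
        have := (hA.norm.pow 2).div_const (ε ^ 2)
        simpa using this
      apply squeeze_zero (fun n => ?_) (fun n => ?_) hA2
      · simp only [hG]
        split_ifs
        · positivity
        · exact le_refl _
      · simp only [hG]
        split_ifs with h1
        · apply div_le_div_of_nonneg_left (by positivity) (by positivity)
          gcongr
        · positivity
  rw [intervalIntegral.integral_zero] at hlim
  have hev1 : ∀ᶠ n in atTop, ∫ x in a..b, G n x < (b - a) / 2 :=
    hlim.eventually_lt_const (by positivity)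
  have hev2 : ∀ᶠ n : ℕ in atTop, 1 / (n : ℝ) < (b - a) / 2 :=
    (tendsto_one_div_atTop_nhds_zero_nat).eventually_lt_const (by positivity)
  obtain ⟨N, hN⟩ := eventually_atTop.mp ((hev1.and hev2).and (eventually_ne_atTop 0))
  refine ⟨N, fun n hn => ?_⟩
  obtain ⟨⟨h1, h2⟩, h3⟩ := hN n hn.le
  rw [dist_zero_right, Real.norm_of_nonneg (D_nonneg c n)]
  by_contra hcon
  push Not at hcon
  have hD : 0 < D c n := lt_of_lt_of_le hε hcon
  have h4 : ∫ x in a..b, G n x = (∫ x in a..b, ‖A c n x‖ ^ 2) / D c n ^ 2 := by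
    rw [← intervalIntegral.integral_div]
    apply intervalIntegral.integral_congr
    intro x _
    simp only [hG]
    rw [if_pos hcon]
  have h5 := integral_norm_A_sq c h3 hab.le
  rw [h4, div_lt_iff₀ (by positivity)] at h1
  have h6 : 0 < D c n ^ 2 := by positivity
  nlinarith

theorem tendsto_coef {c : ℤ → ℂ} (hD : Tendsto (D c) atTop (𝓝 0)) :
    Tendsto (fun n : ℕ => c n) atTop (𝓝 0) ∧ Tendsto (fun n : ℕ => c (-n)) atTop (𝓝 0) := by
  constructor
  · rw [tendsto_zero_iff_norm_tendsto_zero]
    exact squeeze_zero (fun _ => norm_nonneg _) (fun n => le_D c n) hD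
  · rw [tendsto_zero_iff_norm_tendsto_zero]
    exact squeeze_zero (fun _ => norm_nonneg _) (fun n => le_D' c n) hD

theorem exists_coef_bound {c : ℤ → ℂ} (hD : Tendsto (D c) atTop (𝓝 0)) : ∃ B, ∀ n : ℤ, ‖c n‖ ≤ B := by
  obtain ⟨h1, h2⟩ := tendsto_coef hD
  obtain ⟨B1, hB1⟩ := (Metric.isBounded_range_of_tendsto _ h1).exists_norm_le
  obtain ⟨B2, hB2⟩ := (Metric.isBounded_range_of_tendsto _ h2).exists_norm_le
  refine ⟨max B1 B2, fun n => ?_⟩
  obtain ⟨j, hj | hj⟩ := n.eq_nat_or_neg
  · subst hj
    exact (hB1 _ ⟨j, rfl⟩).trans (le_max_left _ _)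
  · subst hj
    exact (hB2 _ ⟨j, rfl⟩).trans (le_max_right _ _)

theorem S_add_int (c : ℤ → ℂ) (N : ℕ) (x : ℝ) (m : ℤ) : S c N (x + m) = S c N x := by
  unfold S
  apply Finset.sum_congr rfl
  intro j _
  have : E j (m : ℝ) = 1 := by
    rw [E]
    have : (2 * (Real.pi : ℂ) * Complex.I * (j : ℂ) * ((m : ℝ) : ℂ)) =
        ((j * m : ℤ) : ℂ) * (2 * Real.pi * Complex.I) := by
      push_cast
      ring
    rw [this, Complex.exp_int_mul_two_pi_mul_I]
  rw [E_add, this, mul_one]

/-- `K` is avoided by a multiplier along infinitely many dilations. -/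
def MultSet (K : Set ℝ) : Prop :=
  ∃ (M : ℕ → ℤ) (γ : ℤ → ℂ), Tendsto M atTop atTop ∧
    (Summable fun j : ℤ => (1 + |(j : ℝ)|) * ‖γ j‖) ∧ γ 0 ≠ 0 ∧
    ∀ x ∈ K, ∀ k, lam γ (M k * x) = 0

theorem uniqueness' {K : Set ℝ} (hK : MultSet K) {c : ℤ → ℂ} (hD : Tendsto (D c) atTop (𝓝 0))
    (hc : ∀ x : ℝ, x ∉ K → Tendsto (fun N : ℕ => S c N x) atTop (𝓝 0)) (n : ℤ) : c n = 0 := by
  obtain ⟨M, γ, hM, hγ, hγ0, hK⟩ := hK
  obtain ⟨h1, h2⟩ := tendsto_coef hD
  obtain ⟨B, hB⟩ := exists_coef_bound hD
  -- the formal products vanish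
  have hP : ∀ k m, P γ c (M k) m = 0 := by
    intro k
    apply cantor (norm_P_le hγ hB (M k))
    intro x
    have h3 := tendsto_P hγ hB h1 h2 (M k) x
    by_cases hx : x ∉ K
    · have h4 := h3.add ((hc x hx).const_mul (lam γ (M k * x)))
      rw [mul_zero, add_zero] at h4
      refine h4.congr fun N => ?_
      ring
    · push Not at hx
      simp only [hK x hx k, zero_mul, sub_zero] at h3
      exact h3
  -- pass to the limit
  have hlim : Tendsto (fun k => P γ c (M k) n) atTop (𝓝 (γ 0 * c n)) := by
    have h3 : γ 0 * c n = ∑' j : ℤ, if j = 0 then γ 0 * c n else 0 := by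
      rw [tsum_ite_eq]
    rw [h3]
    unfold P
    apply tendsto_tsum_of_dominated_convergence (bound := fun j : ℤ => ‖γ j‖ * B)
      ((summable_norm_gamma hγ).mul_right B)
    · intro j
      split_ifs with hj
      · subst hj
        simp only [zero_mul, sub_zero]
        exact tendsto_const_nhds
      · have hcz : Tendsto (fun k => ‖c (n - j * M k)‖) atTop (𝓝 0) := by
          have hDD : ∀ m : ℤ, ‖c m‖ ≤ D c m.natAbs := by
            intro m
            rcases Int.natAbs_eq m with h | h
            · conv_lhs => rw [h]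
              exact le_D c _
            · conv_lhs => rw [h]
              exact le_D' c _
          apply squeeze_zero (fun _ => norm_nonneg _) (fun k => hDD _)
          apply hD.comp
          rw [tendsto_atTop]
          intro C
          filter_upwards [hM.eventually_ge_atTop ((C : ℤ) + |n|)] with k hk
          have h7 : |j * M k| ≥ C + |n| := by
            rw [abs_mul]
            have h8 : 1 ≤ |j| := Int.one_le_abs hj
            have h9 : M k ≤ |M k| := le_abs_self _
            nlinarith [abs_nonneg (M k)]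
          have h10 : (C : ℤ) ≤ |n - j * M k| := by
            have := abs_sub_abs_le_abs_sub (j * M k) n
            rw [abs_sub_comm] at this
            omega
          have h11 : ((n - j * M k).natAbs : ℤ) = |n - j * M k| := Int.natCast_natAbs _
          omega
        rw [tendsto_zero_iff_norm_tendsto_zero]
        simp only [norm_mul]
        simpa using hcz.const_mul ‖γ j‖
    · refine Eventually.of_forall fun k j => ?_
      rw [norm_mul]
      exact mul_le_mul_of_nonneg_left (hB _) (norm_nonneg _)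
  have h0 : Tendsto (fun k => P γ c (M k) n) atTop (𝓝 0) := by
    simp only [hP]
    exact tendsto_const_nhds
  have := tendsto_nhds_unique hlim h0
  rcases mul_eq_zero.1 this with h | h
  · exact absurd h hγ0
  · exact h

/-- a bump around any point -/
theorem exists_bump_at (y : ℝ) {r : ℝ} (hr : 0 < r) (hr2 : r < 1 / 2) :
    ∃ γ : ℤ → ℂ, (Summable fun j : ℤ => (1 + |(j : ℝ)|) * ‖γ j‖) ∧ γ 0 ≠ 0 ∧
      (∀ x, lam γ x ≠ 0 → ∃ m : ℤ, |x + m - y| < r) ∧ lam γ y = 1 := by
  obtain ⟨γ, h1, h2, h3, h4⟩ := exists_bump (u := 1 / 2 - r) (w := 1 / 2 + r) (by linarith)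
    (by linarith) (by linarith)
  have hn : ∀ j, ‖γ j * E j (1 / 2 - y)‖ = ‖γ j‖ := by
    intro j
    rw [norm_mul, norm_E, mul_one]
  have hlam : ∀ x, lam (fun j => γ j * E j (1 / 2 - y)) x = lam γ (x + (1 / 2 - y)) := by
    intro x
    unfold lam
    congr 1
    ext j
    rw [E_add]
    ring
  refine ⟨fun j => γ j * E j (1 / 2 - y), ?_, ?_, ?_, ?_⟩
  · simpa only [hn] using h1
  · simp only
    rw [E_zero, mul_one]
    exact h2
  · intro x hx
    rw [hlam] at hx
    set z := x + (1 / 2 - y) with hz
    have hz1 : lam γ (Int.fract z) ≠ 0 := by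
      have : Int.fract z = z + ((-⌊z⌋ : ℤ) : ℝ) := by
        rw [Int.fract]
        push_cast
        ring
      rw [this, lam_add_int]
      exact hx
    have hz2 : Int.fract z ∈ Set.Ioo (1 / 2 - r) (1 / 2 + r) := by
      by_contra hcon
      exact hz1 (h3 _ ⟨Int.fract_nonneg _, Int.fract_lt_one _⟩ hcon)
    refine ⟨-⌊z⌋, ?_⟩
    have h5 : x + ((-⌊z⌋ : ℤ) : ℝ) - y = Int.fract z - 1 / 2 := by
      rw [Int.fract, hz]
      push_cast
      ring
    rw [h5, abs_lt]
    constructor <;> linarith [hz2.1, hz2.2]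
  · rw [hlam]
    apply h4
    constructor <;> linarith

/-- Countable unions of closed periodic null sets with multipliers are sets of uniqueness. -/
theorem bari {E : ℕ → Set ℝ} (hE : ∀ i, IsClosed (E i)) (hper : ∀ i (x : ℝ) (m : ℤ), x + m ∈ E i → x ∈ E i)
    (hnull : ∀ i, volume (E i) = 0) (hmult : ∀ i, MultSet (E i)) {c : ℤ → ℂ}
    (hc : ∀ x : ℝ, (∀ i, x ∉ E i) → Tendsto (fun N : ℕ => S c N x) atTop (𝓝 0)) (n : ℤ) :
    c n = 0 := by
  have hae : ∀ᵐ x : ℝ, Tendsto (fun N : ℕ => S c N x) atTop (𝓝 0) := by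
    have h1 : ∀ᵐ x : ℝ, ∀ i, x ∉ E i := by
      rw [ae_all_iff]
      intro i
      exact measure_eq_zero_iff_ae_notMem.1 (hnull i)
    filter_upwards [h1] with x hx
    exact hc x hx
  have hD := cantor_lebesgue_ae hae
  obtain ⟨h1, h2⟩ := tendsto_coef hD
  obtain ⟨B, hB⟩ := exists_coef_bound hD
  set N : Set ℝ := {x | ¬ Tendsto (fun N : ℕ => S c N x) atTop (𝓝 0)} with hN
  rcases N.eq_empty_or_nonempty with hNe | hNe
  · apply cantor hB
    intro x
    by_contra hcon
    have : x ∈ N := hcon
    rw [hNe] at this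
    exact this
  exfalso
  set F : Set ℝ := closure N with hF
  have hFc : IsClosed F := isClosed_closure
  have hFne : F.Nonempty := hNe.closure
  -- localisation
  have hloc : ∀ (y : ℝ), y ∈ N → ∀ I : Set ℝ, IsOpen I → y ∈ I →
      ((∃ K : ℝ, ∀ x ∈ I ∩ F, ∀ m, ‖S c m x‖ ≤ K) ∨ ∃ i, I ∩ F ⊆ E i) → False := by
    intro y hy I hI hyI hcase
    obtain ⟨r, hr, hball⟩ := Metric.isOpen_iff.1 hI y hyI
    obtain ⟨γ, hγ, -, hsupp, hone⟩ := exists_bump_at y (r := min r (1 / 4)) (by positivity)
      (lt_of_le_of_lt (min_le_right _ _) (by norm_num))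
    have hsupp' : ∀ x, lam γ x ≠ 0 → ∃ m : ℤ, x + m ∈ I := by
      intro x hx
      obtain ⟨m, hm⟩ := hsupp x hx
      refine ⟨m, hball ?_⟩
      rw [Metric.mem_ball, Real.dist_eq]
      exact lt_of_lt_of_le hm (min_le_left _ _)
    set T := P γ c 1 with hT
    have hTP : ∀ x, Tendsto (fun N : ℕ => S T N x - lam γ x * S c N x) atTop (𝓝 0) := by
      intro x
      have := tendsto_P hγ hB h1 h2 1 x
      simpa using this
    have hTae : ∀ᵐ x : ℝ, Tendsto (fun N : ℕ => S T N x) atTop (𝓝 0) := by
      filter_upwards [hae] with x hx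
      have h4 := (hTP x).add (hx.const_mul (lam γ x))
      rw [mul_zero, add_zero] at h4
      refine h4.congr fun N => ?_
      ring
    have hTz : ∀ m, T m = 0 := by
      rcases hcase with ⟨K, hK⟩ | ⟨i, hi⟩
      · apply vallee (norm_P_le hγ hB 1) _ hTae
        intro x
        -- the partial sums of `c` are bounded where `lam` does not vanish
        have hbd : ∃ K' : ℝ, ∀ m, ‖lam γ x * S c m x‖ ≤ K' := by
          by_cases hx : lam γ x = 0
          · exact ⟨0, fun m => by rw [hx, zero_mul, norm_zero]⟩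
          obtain ⟨m, hm⟩ := hsupp' x hx
          have : ∃ K' : ℝ, ∀ j, ‖S c j x‖ ≤ K' := by
            by_cases hmF : x + m ∈ F
            · refine ⟨K, fun j => ?_⟩
              rw [← S_add_int c j x m]
              exact hK _ ⟨hm, hmF⟩ j
            · have hmN : x + m ∉ N := fun h => hmF (subset_closure h)
              have hconv : Tendsto (fun N : ℕ => S c N (x + m)) atTop (𝓝 0) := by
                by_contra hcon
                exact hmN hcon
              simp only [S_add_int] at hconv
              obtain ⟨K', hK'⟩ := (Metric.isBounded_range_of_tendsto _ hconv).exists_norm_le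
              exact ⟨K', fun j => hK' _ ⟨j, rfl⟩⟩
          obtain ⟨K', hK'⟩ := this
          refine ⟨‖lam γ x‖ * K', fun j => ?_⟩
          rw [norm_mul]
          exact mul_le_mul_of_nonneg_left (hK' j) (norm_nonneg _)
        obtain ⟨K', hK'⟩ := hbd
        obtain ⟨K'', hK''⟩ := (Metric.isBounded_range_of_tendsto _ (hTP x)).exists_norm_le
        refine ⟨K'' + K', fun j => ?_⟩
        have e : S T j x = (S T j x - lam γ x * S c j x) + lam γ x * S c j x := by ring
        rw [e]
        exact (norm_add_le _ _).trans (add_le_add (hK'' _ ⟨j, rfl⟩) (hK' j))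
      · apply uniqueness' (hmult i) (cantor_lebesgue_ae hTae)
        intro x hx
        by_cases hlx : lam γ x = 0
        · have := hTP x
          simp only [hlx, zero_mul, sub_zero] at this
          exact this
        · obtain ⟨m, hm⟩ := hsupp' x hlx
          have hmE : x + m ∉ E i := fun h => hx (hper i x m h)
          have hmF : x + m ∉ F := fun h => hmE (hi ⟨hm, h⟩)
          have hmN : x + m ∉ N := fun h => hmF (subset_closure h)
          have hconv : Tendsto (fun N : ℕ => S c N (x + m)) atTop (𝓝 0) := by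
            by_contra hcon
            exact hmN hcon
          simp only [S_add_int] at hconv
          have h4 := (hTP x).add (hconv.const_mul (lam γ x))
          rw [mul_zero, add_zero] at h4
          refine h4.congr fun N => ?_
          ring
    have hTS : ∀ m, S T m y = 0 := by
      intro m
      unfold S
      apply Finset.sum_eq_zero
      intro j _
      rw [hTz, zero_mul]
    have h5 := (hTP y).neg
    simp only [hTS, hone, one_mul, zero_sub, neg_neg, neg_zero] at h5
    exact hy h5
  -- Baire category in `F`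
  have : CompleteSpace F := hFc.completeSpace_coe
  have : Nonempty F := hFne.to_subtype
  set W : ℕ ⊕ ℕ → Set F := fun s => Sum.elim (fun K : ℕ => {x : F | ∀ m, ‖S c m x‖ ≤ K})
    (fun i => {x : F | (x : ℝ) ∈ E i}) s with hW
  have hWc : ∀ s, IsClosed (W s) := by
    rintro (K | i)
    · simp only [hW, Sum.elim_inl]
      have : {x : F | ∀ m, ‖S c m x‖ ≤ K} = ⋂ m, {x : F | ‖S c m x‖ ≤ K} := by
        ext x
        simp
      rw [this]
      refine isClosed_iInter fun m => ?_
      have hcont : Continuous (fun x : ℝ => S c m x) := by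
        unfold S
        exact continuous_finset_sum _ fun j _ => (continuous_E j).const_mul _
      exact isClosed_le ((hcont.comp continuous_subtype_val).norm) continuous_const
    · simp only [hW, Sum.elim_inr]
      exact (hE i).preimage continuous_subtype_val
  have hWu : ⋃ s, W s = univ := by
    rw [eq_univ_iff_forall]
    intro x
    rw [mem_iUnion]
    by_cases hb : ∃ i, (x : ℝ) ∈ E i
    · obtain ⟨i, hi⟩ := hb
      exact ⟨Sum.inr i, hi⟩
    · push Not at hb
      obtain ⟨K, hK⟩ := (Metric.isBounded_range_of_tendsto _ (hc x hb)).exists_norm_le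
      obtain ⟨K', hK'⟩ := exists_nat_ge K
      exact ⟨Sum.inl K', fun m => (hK _ ⟨m, rfl⟩).trans hK'⟩
  obtain ⟨s, x, hx⟩ := nonempty_interior_of_iUnion_of_closed hWc hWu
  obtain ⟨I, hI, hIe⟩ := isOpen_induced_iff.1 (isOpen_interior (s := W s))
  have hxI : (x : ℝ) ∈ I := by
    have : x ∈ Subtype.val ⁻¹' I := by rw [hIe]; exact hx
    exact this
  obtain ⟨y, hyI, hyN⟩ := mem_closure_iff.1 x.2 I hI hxI
  apply hloc y hyN I hI hyI
  have hIF : ∀ z ∈ I ∩ F, ∃ hz : z ∈ F, (⟨z, hz⟩ : F) ∈ W s := by
    rintro z ⟨hzI, hzF⟩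
    refine ⟨hzF, interior_subset ?_⟩
    rw [← hIe]
    exact hzI
  rcases s with K | i
  · left
    refine ⟨K, fun z hz m => ?_⟩
    obtain ⟨hzF, hzW⟩ := hIF z hz
    exact hzW m
  · right
    refine ⟨i, fun z hz => ?_⟩
    obtain ⟨hzF, hzW⟩ := hIF z hz
    exact hzW

end Pool.Agent.X126.SU
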