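import Pool.Agent.Y249.SU.Bump

/-!
# Smooth multipliers supported in short intervals
-/

set_option autoImplicit false

open MeasureTheory Filter Topology

namespace Pool.Agent.X126.SU

open Pool.Agent.Y249.SU hiding Sm Sm.deriv Sm.bounded Sm.zero Sm.one Sm.decay Sm.summable Sm.lam_eq

variable {u w : ℝ}

/-- The smooth functions supported in `[u, w]`. -/
def Sm (u w : ℝ) (g : ℝ → ℂ) : Prop :=
  (0 < u ∧ w < 1) ∧ ContDiff ℝ ((⊤ : ℕ∞) : WithTop ℕ∞) g ∧ ∀ x, x ∉ Set.Icc u w → g x = 0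

theorem Sm.deriv {g : ℝ → ℂ} (hg : Sm u w g) : Sm u w (deriv g) := by
  refine ⟨hg.1, ?_, fun x hx => ?_⟩
  · have h1 := hg.2.1
    rw [show ((⊤ : ℕ∞) : WithTop ℕ∞) = ((⊤ : ℕ∞) : WithTop ℕ∞) + 1 from rfl] at h1
    rw [contDiff_succ_iff_deriv] at h1
    exact h1.2.2
  · have hopen : IsOpen (Set.Icc u w)ᶜ := isClosed_Icc.isOpen_compl
    have h2 : g =ᶠ[𝓝 x] fun _ => 0 := by
      filter_upwards [hopen.mem_nhds hx] with y hy
      exact hg.2.2 y hy
    rw [h2.deriv_eq]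
    simp

theorem Sm.bounded {g : ℝ → ℂ} (hg : Sm u w g) : ∃ C, ∀ x, ‖g x‖ ≤ C := by
  obtain ⟨C, hC⟩ := isCompact_Icc.exists_bound_of_continuousOn (s := Set.Icc u w)
    hg.2.1.continuous.continuousOn
  refine ⟨max C 0, fun x => ?_⟩
  by_cases hx : x ∈ Set.Icc u w
  · exact (hC x hx).trans (le_max_left _ _)
  · rw [hg.2.2 x hx, norm_zero]
    exact le_max_right _ _

theorem Sm.zero {g : ℝ → ℂ} (hg : Sm u w g) : g 0 = 0 := hg.2.2 0 (by
  intro h
  have := h.1
  linarith [hg.1.1])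

theorem Sm.one {g : ℝ → ℂ} (hg : Sm u w g) : g 1 = 0 := hg.2.2 1 (by
  intro h
  have := h.2
  linarith [hg.1.2])

theorem Sm.decay {g : ℝ → ℂ} (hg : Sm u w g) : ∃ C, 0 ≤ C ∧ ∀ n : ℤ, n ≠ 0 → ‖fc g n‖ ≤ C / |(n : ℝ)| ^ 3 := by
  obtain ⟨C, hC⟩ := hg.deriv.deriv.deriv.bounded
  have hC0 : 0 ≤ C := (norm_nonneg _).trans (hC 0)
  refine ⟨C, hC0, fun n hn => ?_⟩
  have hn' : 0 < |(n : ℝ)| := abs_pos.mpr (Int.cast_ne_zero.mpr hn)
  have key : ∀ {f : ℝ → ℂ}, Sm u w f → ‖fc f n‖ ≤ ‖fc (_root_.deriv f) n‖ / |(n : ℝ)| := fun hf =>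
    fc_deriv (hf.2.1.of_le (by exact_mod_cast le_top)) hf.zero hf.one hn
  have h1 := key hg
  have h2 := key hg.deriv
  have h3 := key hg.deriv.deriv
  have h4 := norm_fc_le hC n
  calc ‖fc g n‖ ≤ (((C) / |(n : ℝ)|) / |(n : ℝ)|) / |(n : ℝ)| := by
        refine h1.trans ?_
        gcongr
        refine h2.trans ?_
        gcongr
        refine h3.trans ?_
        gcongr
    _ = C / |(n : ℝ)| ^ 3 := by field_simp

theorem Sm.summable {g : ℝ → ℂ} (hg : Sm u w g) : Summable fun j : ℤ => (1 + |(j : ℝ)|) * ‖fc g j‖ := by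
  obtain ⟨C, hC0, hC⟩ := hg.decay
  have hs : Summable fun j : ℤ => 2 * C * (1 / (j : ℝ) ^ 2) :=
    (Real.summable_one_div_int_pow.mpr (by norm_num)).mul_left _
  have hs2 : Summable fun j : ℤ => if j = 0 then ‖fc g 0‖ else 0 :=
    (hasSum_ite_eq 0 ‖fc g 0‖).summable
  refine Summable.of_nonneg_of_le (fun _ => by positivity) (fun j => ?_) (hs.add hs2)
  by_cases hj : j = 0
  · subst hj
    simp
  · rw [if_neg hj, add_zero]
    have hn' : 1 ≤ |(j : ℝ)| := by
      have := Int.one_le_abs hj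
      exact_mod_cast this
    have h1 := hC j hj
    calc (1 + |(j : ℝ)|) * ‖fc g j‖ ≤ (2 * |(j : ℝ)|) * (C / |(j : ℝ)| ^ 3) := by
          apply mul_le_mul _ h1 (norm_nonneg _) (by positivity)
          linarith
      _ = 2 * C * (1 / (j : ℝ) ^ 2) := by
          rw [← sq_abs (j : ℝ)]
          have : |(j : ℝ)| ≠ 0 := by positivity
          field_simp

theorem Sm.lam_eq {g : ℝ → ℂ} (hg : Sm u w g) {x : ℝ} (hx : x ∈ Set.Ico (0 : ℝ) 1) :
    lam (fc g) x = g x := by
  have hcont : Continuous (AddCircle.liftIco (1 : ℝ) 0 g) :=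
    AddCircle.liftIco_zero_continuous (by rw [hg.zero, hg.one]) hg.2.1.continuous.continuousOn
  set G : C(AddCircle (1 : ℝ), ℂ) := ⟨AddCircle.liftIco (1 : ℝ) 0 g, hcont⟩ with hG
  have hcoef : ∀ n, fourierCoeff (G : AddCircle (1 : ℝ) → ℂ) n = fc g n := by
    intro n
    have := fourierCoeff_liftIco_eq (T := (1 : ℝ)) (a := 0) g n
    rw [fc_eq]
    rw [show (G : AddCircle (1 : ℝ) → ℂ) = AddCircle.liftIco (1 : ℝ) 0 g from rfl, this]
    rw [fourierCoeffOn_eq_integral]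
    simp only [zero_add, sub_zero, div_one, one_smul, smul_eq_mul]
    apply intervalIntegral.integral_congr
    intro x _
    simp only []
    rw [fourier_coe_apply]
    congr 1
    rw [E]
    congr 1
    push_cast
    ring
  have hsum : Summable (fourierCoeff (G : AddCircle (1 : ℝ) → ℂ)) := by
    have : fourierCoeff (G : AddCircle (1 : ℝ) → ℂ) = fc g := funext hcoef
    rw [this]
    exact (summable_norm_gamma hg.summable).of_norm
  have h1 := has_pointwise_sum_fourier_series_of_summable hsum (x : AddCircle (1 : ℝ))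
  have h2 : G (x : AddCircle (1 : ℝ)) = g x := by
    rw [show G (x : AddCircle (1 : ℝ)) = AddCircle.liftIco (1 : ℝ) 0 g x from rfl]
    exact AddCircle.liftIco_zero_coe_apply hx
  rw [h2] at h1
  rw [← h1.tsum_eq, lam]
  apply tsum_congr
  intro n
  rw [hcoef, smul_eq_mul, fourier_coe_apply]
  congr 1
  rw [E]
  congr 1
  push_cast
  ring

theorem lam_add_int (γ : ℤ → ℂ) (x : ℝ) (m : ℤ) : lam γ (x + m) = lam γ x := by
  unfold lam
  congr 1
  ext j
  have : E j (m : ℝ) = 1 := by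
    rw [E]
    have : (2 * (Real.pi : ℂ) * Complex.I * (j : ℂ) * ((m : ℝ) : ℂ)) =
        ((j * m : ℤ) : ℂ) * (2 * Real.pi * Complex.I) := by
      push_cast
      ring
    rw [this, Complex.exp_int_mul_two_pi_mul_I]
  rw [E_add, this, mul_one]

/-- A smooth periodic function which lives on a short interval. -/
theorem exists_bump {u w : ℝ} (h0 : 0 < u) (huw : u < w) (h1 : w < 1) :
    ∃ γ : ℤ → ℂ, (Summable fun j : ℤ => (1 + |(j : ℝ)|) * ‖γ j‖) ∧ γ 0 ≠ 0 ∧
      (∀ x ∈ Set.Ico (0 : ℝ) 1, x ∉ Set.Ioo u w → lam γ x = 0) ∧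
      (∀ x ∈ Set.Ioo ((3 * u + w) / 4) ((u + 3 * w) / 4), lam γ x = 1) := by
  let f : ContDiffBump ((u + w) / 2 : ℝ) := ⟨(w - u) / 4, (w - u) / 2, by linarith, by linarith⟩
  have hout : ∀ x, x ∉ Set.Ioo u w → ((f x : ℝ) : ℂ) = 0 := by
    intro x hx
    have : f x = 0 := by
      apply f.zero_of_le_dist
      rw [Real.dist_eq]
      by_contra hcon
      push Not at hcon
      apply hx
      have h8 : f.rOut = (w - u) / 2 := rfl
      rw [h8, abs_lt] at hcon
      constructor <;> linarith [hcon.1, hcon.2]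
    simp [this]
  have hsm : Sm u w (fun x => ((f x : ℝ) : ℂ)) := by
    refine ⟨⟨h0, h1⟩, ?_, fun x hx => hout x (fun h => hx (Set.Ioo_subset_Icc_self h))⟩
    exact Complex.ofRealCLM.contDiff.comp f.contDiff
  refine ⟨fc (fun x => ((f x : ℝ) : ℂ)), hsm.summable, ?_, fun x hx hx' => ?_, fun x hx => ?_⟩
  · rw [fc_eq]
    have h1 : ∀ x : ℝ, E (-0) x * ((f x : ℝ) : ℂ) = ((f x : ℝ) : ℂ) := by
      intro x
      rw [neg_zero, E_zero, one_mul]
    simp only [h1]
    rw [intervalIntegral.integral_ofReal]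
    have hpos : 0 < ∫ x in (0 : ℝ)..1, f x := by
      apply intervalIntegral.integral_pos (by norm_num) f.continuous.continuousOn
      · intro x _
        exact f.nonneg
      · refine ⟨(u + w) / 2, by constructor <;> linarith, ?_⟩
        rw [f.one_of_mem_closedBall (Metric.mem_closedBall_self f.rIn_pos.le)]
        exact one_pos
    exact Complex.ofReal_ne_zero.mpr hpos.ne'
  · rw [hsm.lam_eq hx]
    exact hout x hx'
  · rw [hsm.lam_eq ⟨by linarith [hx.1], by linarith [hx.2]⟩]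
    have : f x = 1 := by
      apply f.one_of_mem_closedBall
      rw [Metric.mem_closedBall, Real.dist_eq, abs_le]
      have h8 : f.rIn = (w - u) / 4 := rfl
      rw [h8]
      constructor <;> linarith [hx.1, hx.2]
    simp [this]

end Pool.Agent.X126.SU
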