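import Pool.Agent.X126.SU.Bari
import Pool.Agent.X126.LC.Good

/-!
# The exceptional set in Littlewood's conjecture is a set of uniqueness
-/

set_option autoImplicit false

open MeasureTheory Filter Topology Set

namespace Pool.Agent.X126.SU

open Pool.Agent.Y249.SU

/-- sets with multipliers have measure zero -/
theorem null_of_mult {K : Set ℝ} (hKm : MeasurableSet K) (hK : MultSet K) : volume K = 0 := by
  obtain ⟨M, γ, hM, hγ, hγ0, hK⟩ := hK
  -- bounded parts
  have key : ∀ R : ℕ, volume (K ∩ Icc (-(R : ℝ)) R) = 0 := by
    intro R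
    set A : Set ℝ := K ∩ Icc (-(R : ℝ)) R with hA
    have hAm : MeasurableSet A := hKm.inter measurableSet_Icc
    have hAfin : volume A ≠ ⊤ :=
      ne_top_of_le_ne_top (by rw [Real.volume_Icc]; exact ENNReal.ofReal_ne_top)
        (measure_mono inter_subset_right)
    have hone : IntegrableOn (fun _ : ℝ => (1 : ℂ)) A := integrableOn_const hAfin
    -- the integrals of the characters
    have hint : ∀ n : ℤ, ∀ (m : ℤ), IntegrableOn (fun x : ℝ => E n (m * x)) A := by
      intro n m
      refine Integrable.mono' (g := fun _ => (1 : ℝ)) (integrableOn_const hAfin) ?_ ?_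
      · exact ((continuous_E n).comp (by fun_prop)).aestronglyMeasurable
      · filter_upwards with x
        rw [norm_E]
    have hzero : ∀ k, ∑' j : ℤ, γ j * ∫ x in A, E j (M k * x) = 0 := by
      intro k
      have h1 : ∀ j : ℤ, γ j * ∫ x in A, E j (M k * x) = ∫ x in A, γ j * E j (M k * x) := by
        intro j
        rw [integral_const_mul]
      simp only [h1]
      rw [integral_tsum_of_summable_integral_norm]
      · rw [setIntegral_congr_fun (g := fun _ => (0 : ℂ)) hAm]
        · simp
        · intro x hx
          exact hK x hx.1 k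
      · intro j
        exact (hint j (M k)).const_mul _
      · have h2 : ∀ j : ℤ, ∫ x in A, ‖γ j * E j (M k * x)‖ = ‖γ j‖ * volume.real A := by
          intro j
          simp only [norm_mul, norm_E, mul_one]
          rw [setIntegral_const, smul_eq_mul, mul_comm]
        simp only [h2]
        exact (summable_norm_gamma hγ).mul_right _
    have hlim : Tendsto (fun k => ∑' j : ℤ, γ j * ∫ x in A, E j (M k * x)) atTop
        (𝓝 (∑' j : ℤ, if j = 0 then γ 0 * (volume.real A : ℂ) else 0)) := by
      apply tendsto_tsum_of_dominated_convergence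
        (bound := fun j : ℤ => ‖γ j‖ * volume.real A) ((summable_norm_gamma hγ).mul_right _)
      · intro j
        split_ifs with hj
        · subst hj
          simp only [E_zero]
          rw [setIntegral_const]
          simp
        · have h3 : Tendsto (fun k => ∫ x in A, E j (M k * x)) atTop (𝓝 0) := by
            have hRL := Real.tendsto_integral_exp_smul_cocompact (A.indicator (fun _ => (1 : ℂ)))
            have hw : Tendsto (fun k => -((j : ℝ) * M k)) atTop (cocompact ℝ) := by
              have hMR : Tendsto (fun k => (M k : ℝ)) atTop atTop :=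
                tendsto_intCast_atTop_atTop.comp hM
              rw [cocompact_eq_atBot_atTop]
              rcases lt_or_gt_of_ne hj with h | h
              · apply Tendsto.mono_right _ le_sup_right
                have : (0 : ℝ) < -(j : ℝ) := by
                  have : (j : ℝ) < 0 := by exact_mod_cast h
                  linarith
                have := hMR.const_mul_atTop this
                refine this.congr fun k => ?_
                ring
              · apply Tendsto.mono_right _ le_sup_left
                have : (-(j : ℝ)) < 0 := by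
                  have : (0 : ℝ) < j := by exact_mod_cast h
                  linarith
                have := hMR.const_mul_atTop_of_neg this
                refine this.congr fun k => ?_
                ring
            have h4 := hRL.comp hw
            refine h4.congr fun k => ?_
            simp only [Function.comp]
            rw [← integral_indicator hAm]
            congr 1
            ext x
            by_cases hx : x ∈ A
            · rw [indicator_of_mem hx, indicator_of_mem hx, Circle.smul_def, smul_eq_mul, mul_one,
                Real.fourierChar_apply, E]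
              congr 1
              push_cast
              ring
            · rw [indicator_of_notMem hx, indicator_of_notMem hx, smul_zero]
          simpa using h3.const_mul (γ j)
      · refine Eventually.of_forall fun k j => ?_
        rw [norm_mul]
        apply mul_le_mul_of_nonneg_left _ (norm_nonneg _)
        have := norm_setIntegral_le_of_norm_le_const (μ := volume) (s := A) (C := 1)
          (f := fun x : ℝ => E j (M k * x)) hAfin.lt_top (fun x _ => by rw [norm_E])
        simpa using this
    rw [tsum_ite_eq] at hlim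
    simp only [hzero] at hlim
    have h5 := tendsto_nhds_unique tendsto_const_nhds hlim
    have h6 : volume.real A = 0 := by
      rcases mul_eq_zero.1 h5.symm with h | h
      · exact absurd h hγ0
      · exact_mod_cast h
    rw [measureReal_eq_zero_iff hAfin] at h6
    exact h6
  have hcov : K ⊆ ⋃ R : ℕ, K ∩ Icc (-(R : ℝ)) R := by
    intro x hx
    obtain ⟨R, hR⟩ := exists_nat_ge |x|
    exact mem_iUnion.2 ⟨R, hx, abs_le.1 hR⟩
  exact measure_mono_null hcov (measure_iUnion_null key)

/-- Good inhomogeneous approximations. -/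
theorem minkowski {α : ℝ} (hα : Irrational α) (γ : ℝ) (N : ℕ) :
    ∃ q : ℕ, N ≤ q ∧ 0 < q ∧ (q : ℝ) * |(q : ℝ) * α - γ - round ((q : ℝ) * α - γ)| ≤ 3 := by
  open Pool.Agent.H380R2.LC Pool.Agent.X126.LC in
  obtain ⟨k, hk⟩ := (((tendsto_den hα).comp (tendsto_add_atTop_nat 1)).eventually_ge_atTop
    (N : ℤ)).exists
  simp only [Function.comp] at hk
  set d : ℝ := (H380R2.LC.den α (k + 1) : ℝ) with hd
  have hd1 : 1 ≤ d := by rw [hd]; exact_mod_cast X126.LC.den_pos hα k
  set d0 : ℝ := (H380R2.LC.den α k : ℝ) with hd0
  have hd00 : 0 ≤ d0 := by rw [hd0]; exact_mod_cast H380R2.LC.den_nonneg hα k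
  have hd0d : d0 ≤ d := by rw [hd0, hd]; exact_mod_cast X126.LC.den_mono hα (Nat.le_succ k)
  set t0 : ℝ := H380R2.LC.th α k with ht0
  set t1 : ℝ := H380R2.LC.th α (k + 1) with ht1
  have hdet : |d * t0 - d0 * t1| = 1 := H380R2.LC.det_abs α k
  have hdet0 : d * t0 - d0 * t1 ≠ 0 := by
    intro h
    rw [h, abs_zero] at hdet
    exact zero_ne_one hdet
  have ht : |t1| ≤ |t0| := H380R2.LC.th_mono hα k
  have hdt : d * |t0| ≤ 1 := H380R2.LC.den_mul_th hα k
  set x : ℝ := (γ * d - 2 * d * t1) / (d * t0 - d0 * t1) with hx
  set y : ℝ := (2 * d * t0 - γ * d0) / (d * t0 - d0 * t1) with hy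
  have e1 : x * d0 + y * d = 2 * d := by
    rw [hx, hy, div_mul_eq_mul_div, div_mul_eq_mul_div, ← add_div, div_eq_iff hdet0]
    ring
  have e2 : x * t0 + y * t1 = γ := by
    rw [hx, hy, div_mul_eq_mul_div, div_mul_eq_mul_div, ← add_div, div_eq_iff hdet0]
    ring
  set a : ℤ := round x with ha
  set b : ℤ := round y with hb
  have hax : |(a : ℝ) - x| ≤ 1 / 2 := by rw [abs_sub_comm]; exact abs_sub_round x
  have hby : |(b : ℝ) - y| ≤ 1 / 2 := by rw [abs_sub_comm]; exact abs_sub_round y
  set q : ℤ := a * H380R2.LC.den α k + b * H380R2.LC.den α (k + 1) with hq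
  set p : ℤ := a * H380R2.LC.num α k + b * H380R2.LC.num α (k + 1) with hp
  have hqR : (q : ℝ) = a * d0 + b * d := by rw [hq, hd0, hd]; push_cast; ring
  have hqp : (q : ℝ) * α - p = a * t0 + b * t1 := by
    rw [hq, hp, ht0, ht1, H380R2.LC.th, H380R2.LC.th]
    push_cast
    ring
  have hq1 : |(q : ℝ) - 2 * d| ≤ d := by
    have : (q : ℝ) - 2 * d = (a - x) * d0 + (b - y) * d := by
      rw [hqR, ← e1]
      ring
    rw [this]
    refine (abs_add_le _ _).trans ?_
    rw [abs_mul, abs_mul, abs_of_nonneg hd00, abs_of_nonneg (by linarith : 0 ≤ d)]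
    nlinarith
  have hq2 : |(q : ℝ) * α - p - γ| ≤ |t0| := by
    have : (q : ℝ) * α - p - γ = (a - x) * t0 + (b - y) * t1 := by
      rw [hqp, ← e2]
      ring
    rw [this]
    refine (abs_add_le _ _).trans ?_
    rw [abs_mul, abs_mul]
    nlinarith [abs_nonneg t0, abs_nonneg t1]
  have hq3 : d ≤ q := by linarith [(abs_le.1 hq1).1]
  have hq4 : (q : ℝ) ≤ 3 * d := by linarith [(abs_le.1 hq1).2]
  have hq0 : 0 < q := by
    have : (0 : ℝ) < q := by linarith
    exact_mod_cast this
  obtain ⟨n, hn⟩ : ∃ n : ℕ, (n : ℤ) = q := Int.eq_ofNat_of_zero_le hq0.le |>.imp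
    (fun q h => h.symm)
  have hnR : (n : ℝ) = q := by exact_mod_cast hn
  have hNn : N ≤ n := by
    have h1 : (H380R2.LC.den α (k + 1) : ℝ) ≤ q := hq3
    have h2 : H380R2.LC.den α (k + 1) ≤ q := by exact_mod_cast h1
    omega
  refine ⟨n, hNn, by omega, ?_⟩
  rw [hnR]
  have hr : |(q : ℝ) * α - γ - round ((q : ℝ) * α - γ)| ≤ |t0| := by
    refine (round_le _ p).trans ?_
    have : (q : ℝ) * α - γ - p = (q : ℝ) * α - p - γ := by ring
    rw [this]
    exact hq2
  calc (q : ℝ) * |(q : ℝ) * α - γ - round ((q : ℝ) * α - γ)| ≤ (3 * d) * |t0| :=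
        mul_le_mul hq4 hr (abs_nonneg _) (by linarith)
    _ = 3 * (d * |t0|) := by ring
    _ ≤ 3 := by linarith

end Pool.Agent.X126.SU
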