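import Pool.Agent.X126.SU.Lc

/-!
# The exceptional set in Littlewood's conjecture is a set of uniqueness: main theorem
-/

set_option autoImplicit false

open MeasureTheory Filter Topology Set

namespace Pool.Agent.X126.SU

open Pool.Agent.Y249.SU

/-- `liminf q ‖q α - γ‖ ‖q β - δ‖ = 0` for all `δ` -/
def Good (α γ β : ℝ) : Prop :=
  ∀ δ ε : ℝ, 0 < ε → ∀ N : ℕ, ∃ q : ℕ, N ≤ q ∧ 0 < q ∧
    (q : ℝ) * |(q : ℝ) * α - γ - round ((q : ℝ) * α - γ)| *
      |(q : ℝ) * β - δ - round ((q : ℝ) * β - δ)| < ε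

/-- the basic closed sets -/
def HS (n : ℕ → ℕ) (a : ℚ) (l K : ℕ) : Set ℝ :=
  {β | ∀ j, K ≤ j → 1 / ((l : ℝ) + 3) ≤ ‖((n j * β - a : ℝ) : UnitAddCircle)‖}

lemma isClosed_HS (n : ℕ → ℕ) (a : ℚ) (l K : ℕ) : IsClosed (HS n a l K) := by
  have : HS n a l K = ⋂ j, ⋂ _ : K ≤ j,
      {β : ℝ | 1 / ((l : ℝ) + 3) ≤ ‖((n j * β - a : ℝ) : UnitAddCircle)‖} := by
    ext x
    simp [HS]
  rw [this]
  refine isClosed_iInter fun j => isClosed_iInter fun _ => ?_
  refine isClosed_le continuous_const ?_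
  apply Continuous.norm
  exact (AddCircle.continuous_mk' (1 : ℝ)).comp (by fun_prop)

lemma HS_per (n : ℕ → ℕ) (a : ℚ) (l K : ℕ) (x : ℝ) (m : ℤ) (h : x + m ∈ HS n a l K) :
    x ∈ HS n a l K := by
  intro j hj
  have h1 := h j hj
  have h2 : ((n j * (x + m) - a : ℝ) : UnitAddCircle) = ((n j * x - a : ℝ) : UnitAddCircle) := by
    have : (n j * (x + m) - a : ℝ) = (n j * x - a) + ((n j * m : ℤ) : ℝ) := by push_cast; ring
    rw [this, AddCircle.coe_add]
    have h3 : (((n j * m : ℤ) : ℝ) : UnitAddCircle) = 0 := by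
      rw [AddCircle.coe_eq_zero_iff]
      exact ⟨n j * m, by simp⟩
    rw [h3, add_zero]
  rwa [h2] at h1

lemma mult_HS {n : ℕ → ℕ} (hn : StrictMono n) (a : ℚ) (l K : ℕ) : MultSet (HS n a l K) := by
  have hr : (0 : ℝ) < 1 / ((l : ℝ) + 3) := by positivity
  have hr2 : (1 : ℝ) / ((l : ℝ) + 3) < 1 / 2 := by
    apply one_div_lt_one_div_of_lt (by norm_num)
    have : (0 : ℝ) ≤ l := by positivity
    linarith
  obtain ⟨γ, h1, h2, h3, -⟩ := exists_bump_at (a : ℝ) hr hr2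
  refine ⟨fun k => (n (K + k) : ℤ), γ, ?_, h1, h2, ?_⟩
  · apply tendsto_natCast_atTop_atTop.comp
    exact hn.tendsto_atTop.comp (tendsto_atTop_mono (fun k => Nat.le_add_left k K) tendsto_id)
  · intro x hx k
    by_contra hcon
    obtain ⟨m, hm⟩ := h3 _ hcon
    have h4 := hx (K + k) (Nat.le_add_right _ _)
    rw [UnitAddCircle.norm_eq] at h4
    have h5 := round_le ((n (K + k) : ℝ) * x - a) (-m)
    have h6 : |(n (K + k) : ℝ) * x - a - ((-m : ℤ) : ℝ)| < 1 / ((l : ℝ) + 3) := by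
      have : (n (K + k) : ℝ) * x - a - ((-m : ℤ) : ℝ) =
          (((n (K + k) : ℕ) : ℤ) : ℝ) * x + m - a := by push_cast; ring
      rw [this]
      exact hm
    linarith

/-- the sequence of good denominators -/
lemma exists_seq (α γ : ℝ) : ∃ n : ℕ → ℕ, StrictMono n ∧ (∀ j, 0 < n j) ∧
    (Irrational α → ∀ j, (n j : ℝ) * |(n j : ℝ) * α - γ - round ((n j : ℝ) * α - γ)| ≤ 3) := by
  by_cases hα : Irrational α
  · obtain ⟨φ, h1, h2⟩ := Nat.exists_strictMono_subsequence (P := fun q : ℕ => 0 < q ∧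
      (q : ℝ) * |(q : ℝ) * α - γ - round ((q : ℝ) * α - γ)| ≤ 3) (by
        intro N
        obtain ⟨q, hq1, hq2, hq3⟩ := minkowski hα γ (N + 1)
        exact ⟨q, by omega, hq2, hq3⟩)
    exact ⟨φ, h1, fun j => (h2 j).1, fun _ j => (h2 j).2⟩
  · exact ⟨fun j => j + 1, fun i j h => by simpa using h, fun j => Nat.succ_pos j,
      fun h => absurd h hα⟩

lemma good_of_notMem {α γ β : ℝ} (h : Irrational α ∨ γ = 0) {n : ℕ → ℕ} (hn : StrictMono n)
    (hn0 : ∀ j, 0 < n j)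
    (hg : Irrational α → ∀ j, (n j : ℝ) * |(n j : ℝ) * α - γ - round ((n j : ℝ) * α - γ)| ≤ 3)
    (hβ : ∀ a l K, β ∉ HS n a l K) : Good α γ β := by
  intro δ ε hε N
  by_cases hα : Irrational α
  · have hη : 0 < ε / 8 := by positivity
    obtain ⟨l, hl⟩ := exists_nat_gt (1 / (ε / 8))
    obtain ⟨a, ha1, ha2⟩ := exists_rat_btwn (show δ < δ + ε / 8 by linarith)
    have h1 := hβ a l N
    simp only [HS, Set.mem_ofPred_eq] at h1
    push Not at h1
    obtain ⟨j, hj, hj2⟩ := h1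
    rw [UnitAddCircle.norm_eq] at hj2
    refine ⟨n j, hj.trans (hn.id_le j), hn0 j, ?_⟩
    have h2 : 1 / ((l : ℝ) + 3) < ε / 8 := by
      rw [div_lt_iff₀ hη] at hl
      rw [div_lt_iff₀ (by positivity)]
      nlinarith
    have h3 : |(n j : ℝ) * β - δ - round ((n j : ℝ) * β - δ)| < ε / 4 := by
      refine (round_le _ (round ((n j : ℝ) * β - a))).trans_lt ?_
      have : (n j : ℝ) * β - δ - round ((n j : ℝ) * β - a) =
          ((n j : ℝ) * β - a - round ((n j : ℝ) * β - a)) + (a - δ) := by ring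
      rw [this]
      refine (abs_add_le _ _).trans_lt ?_
      have h4 : |(a : ℝ) - δ| < ε / 8 := by
        rw [abs_of_pos (by linarith)]
        linarith
      linarith
    calc (n j : ℝ) * |(n j : ℝ) * α - γ - round ((n j : ℝ) * α - γ)| *
        |(n j : ℝ) * β - δ - round ((n j : ℝ) * β - δ)| ≤ 3 * (ε / 4) :=
          mul_le_mul (hg hα j) h3.le (abs_nonneg _) (by norm_num)
      _ < ε := by linarith
  · have hγ : γ = 0 := h.resolve_left hα
    subst hγ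
    unfold Irrational at hα
    push Not at hα
    obtain ⟨y, rfl⟩ := hα
    refine ⟨(N + 1) * y.den, ?_, by have := y.den_pos; positivity, ?_⟩
    · have := y.den_pos
      nlinarith
    · have h1 : (((N + 1) * y.den : ℕ) : ℝ) * ((y : ℚ) : ℝ) = (((N + 1) * y.num : ℤ) : ℝ) := by
        have h2 : (y.den : ℝ) * y = y.num := by exact_mod_cast Rat.den_mul_eq_num y
        push_cast
        rw [mul_assoc, h2]
      rw [h1, sub_zero, round_intCast, sub_self, abs_zero, mul_zero, zero_mul]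
      exact hε

lemma S_eq_sum (c : ℤ → ℂ) (N : ℕ) (x : ℝ) : S c N x =
    ∑ n ∈ Finset.Icc (-(N : ℤ)) (N : ℤ), c n * Complex.exp (2 * Real.pi * Complex.I * n * x) := rfl

/-- The exceptional set is a set of uniqueness. -/
theorem main (α γ : ℕ → ℝ) (h : ∀ i, Irrational (α i) ∨ γ i = 0) (c : ℤ → ℂ)
    (hc : ∀ β ∈ Ico (0 : ℝ) 1, (∀ i, Good (α i) (γ i) β) →
      Tendsto (fun N : ℕ => ∑ n ∈ Finset.Icc (-(N : ℤ)) (N : ℤ),
        c n * Complex.exp (2 * Real.pi * Complex.I * n * β)) atTop (𝓝 0)) (n : ℤ) : c n = 0 := by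
  have hseq := fun i => exists_seq (α i) (γ i)
  choose ν hν1 hν2 hν3 using hseq
  obtain ⟨f, hf⟩ := exists_surjective_nat (ℕ × ℚ × ℕ × ℕ)
  refine bari (E := fun k => HS (ν (f k).1) (f k).2.1 (f k).2.2.1 (f k).2.2.2)
    (fun k => isClosed_HS _ _ _ _) (fun k x m => HS_per _ _ _ _ x m)
    (fun k => null_of_mult (isClosed_HS _ _ _ _).measurableSet (mult_HS (hν1 _) _ _ _))
    (fun k => mult_HS (hν1 _) _ _ _) ?_ n
  intro x hx
  have h1 : ∀ i, Good (α i) (γ i) (Int.fract x) := by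
    intro i
    apply good_of_notMem (h i) (hν1 i) (hν2 i) (hν3 i)
    intro a l K hmem
    obtain ⟨k, hk⟩ := hf (i, a, l, K)
    apply hx k
    simp only [hk]
    apply HS_per _ _ _ _ x (-⌊x⌋)
    have : x + ((-⌊x⌋ : ℤ) : ℝ) = Int.fract x := by
      rw [Int.fract]
      push_cast
      ring
    rw [this]
    exact hmem
  have h2 := hc (Int.fract x) ⟨Int.fract_nonneg _, Int.fract_lt_one _⟩ h1
  simp only [← S_eq_sum] at h2
  have h3 : ∀ N, S c N (Int.fract x) = S c N x := by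
    intro N
    have : Int.fract x = x + ((-⌊x⌋ : ℤ) : ℝ) := by
      rw [Int.fract]
      push_cast
      ring
    rw [this, S_add_int]
  simpa only [h3] using h2

/-- covering by H-sets -/
theorem cover (α γ : ℕ → ℝ) (h : ∀ i, Irrational (α i) ∨ γ i = 0) :
    ∃ E : ℕ → Set ℝ, (∀ k, IsClosed (E k) ∧ ∃ n : ℕ → ℕ, StrictMono n ∧ ∃ a r : ℝ, 0 < r ∧
      ∀ β ∈ E k, ∀ j, r ≤ |(n j : ℝ) * β - a - round ((n j : ℝ) * β - a)|) ∧
      ∀ β : ℝ, (∀ k, β ∉ E k) → ∀ i, Good (α i) (γ i) β := by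
  have hseq := fun i => exists_seq (α i) (γ i)
  choose ν hν1 hν2 hν3 using hseq
  obtain ⟨f, hf⟩ := exists_surjective_nat (ℕ × ℚ × ℕ × ℕ)
  refine ⟨fun k => HS (ν (f k).1) (f k).2.1 (f k).2.2.1 (f k).2.2.2, fun k => ⟨isClosed_HS _ _ _ _,
    fun j => ν (f k).1 ((f k).2.2.2 + j), ?_, (f k).2.1, 1 / (((f k).2.2.1 : ℝ) + 3),
      by positivity, ?_⟩, ?_⟩
  · intro i j hij
    exact hν1 _ (by omega)
  · intro β hβ j
    have h1 := hβ ((f k).2.2.2 + j) (Nat.le_add_right _ _)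
    rwa [UnitAddCircle.norm_eq] at h1
  · intro β hβ i
    apply good_of_notMem (h i) (hν1 i) (hν2 i) (hν3 i)
    intro a l K hmem
    obtain ⟨k, hk⟩ := hf (i, a, l, K)
    apply hβ k
    simp only [hk]
    exact hmem

end Pool.Agent.X126.SU
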