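import Pool.Agent.Y249.SU.Convex

/-!
# Convex functions with infinite second derivative on a null set
-/

set_option autoImplicit false

open MeasureTheory Filter Topology Set

namespace Pool.Agent.X126.SU

open Pool.Agent.Y249.SU

/-- The mean of a primitive of a monotone function. -/
theorem mean_primitive {φ : ℝ → ℝ} (hφ : Monotone φ) {a : ℝ} {k h x : ℝ} (hh : 0 < h)
    (hk : ∀ t ∈ Icc 0 h, 2 * t * k ≤ φ (x + t) - φ (x - t)) :
    k * h ^ 2 / 6 ≤ mean (fun y => ∫ t in a..y, φ t) h x - ∫ t in a..x, φ t := by
  have hint : ∀ p q : ℝ, IntervalIntegrable φ volume p q := fun p q => hφ.intervalIntegrable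
  set ψ : ℝ → ℝ := fun y => ∫ t in a..y, φ t with hψ
  have hψc : Continuous ψ := intervalIntegral.continuous_primitive hint a
  -- second difference
  have h2 : ∀ y ∈ Icc 0 h, k * y ^ 2 ≤ ψ (x + y) + ψ (x - y) - 2 * ψ x := by
    intro y hy
    have e1 : ψ (x + y) - ψ x = ∫ t in (0 : ℝ)..y, φ (x + t) := by
      rw [hψ]
      simp only
      rw [intervalIntegral.integral_interval_sub_left (hint _ _) (hint _ _),
        intervalIntegral.integral_comp_add_left, add_zero]
    have e2 : ψ x - ψ (x - y) = ∫ t in (0 : ℝ)..y, φ (x - t) := by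
      rw [hψ]
      simp only
      rw [intervalIntegral.integral_interval_sub_left (hint _ _) (hint _ _),
        intervalIntegral.integral_comp_sub_left, sub_zero]
    have hi1 : IntervalIntegrable (fun t => φ (x + t)) volume 0 y :=
      (hφ.comp (fun s t hst => by simpa using hst : Monotone fun t => x + t)).intervalIntegrable
    have hi2 : IntervalIntegrable (fun t => φ (x - t)) volume 0 y := by
      have : Antitone (fun t => φ (x - t)) := fun s t hst => hφ (by linarith)
      exact this.intervalIntegrable
    have e3 : ψ (x + y) + ψ (x - y) - 2 * ψ x =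
        ∫ t in (0 : ℝ)..y, (φ (x + t) - φ (x - t)) := by
      rw [intervalIntegral.integral_sub hi1 hi2, ← e1, ← e2]
      ring
    have e4 : ∫ t in (0 : ℝ)..y, (2 * t * k) = k * y ^ 2 := by
      have : ∀ t : ℝ, 2 * t * k = (2 * k) * t := fun t => by ring
      simp only [this]
      rw [intervalIntegral.integral_const_mul, integral_id]
      ring
    rw [e3, ← e4]
    apply intervalIntegral.integral_mono_on hy.1
    · apply Continuous.intervalIntegrable
      fun_prop
    · exact hi1.sub hi2
    · intro t ht
      exact hk t ⟨ht.1, ht.2.trans hy.2⟩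
  -- the mean
  have e5 : ∫ y in (x - h)..(x + h), ψ y = ∫ y in (0 : ℝ)..h, (ψ (x + y) + ψ (x - y)) := by
    have hc1 : Continuous (fun y => ψ (x + y)) := hψc.comp (by fun_prop)
    have hc2 : Continuous (fun y => ψ (x - y)) := hψc.comp (by fun_prop)
    have adj := intervalIntegral.integral_add_adjacent_intervals (μ := volume)
      (hψc.intervalIntegrable (x - h) x) (hψc.intervalIntegrable x (x + h))
    rw [intervalIntegral.integral_add (hc1.intervalIntegrable _ _) (hc2.intervalIntegrable _ _),
      intervalIntegral.integral_comp_add_left, intervalIntegral.integral_comp_sub_left, add_zero,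
      sub_zero]
    linarith
  have e6 : ∫ y in (0 : ℝ)..h, (k * y ^ 2 + 2 * ψ x) ≤
      ∫ y in (0 : ℝ)..h, (ψ (x + y) + ψ (x - y)) := by
    apply intervalIntegral.integral_mono_on hh.le
    · apply Continuous.intervalIntegrable
      fun_prop
    · apply Continuous.intervalIntegrable
      exact (hψc.comp (by fun_prop)).add (hψc.comp (by fun_prop))
    · intro y hy
      have := h2 y hy
      linarith
  have e7 : ∫ y in (0 : ℝ)..h, (k * y ^ 2 + 2 * ψ x) = k * h ^ 3 / 3 + 2 * h * ψ x := by
    rw [intervalIntegral.integral_add (by apply Continuous.intervalIntegrable; fun_prop)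
      (by exact _root_.intervalIntegrable_const), intervalIntegral.integral_const_mul, integral_pow,
      intervalIntegral.integral_const, smul_eq_mul]
    ring
  rw [e7, ← e5] at e6
  have e8 : k * h ^ 2 / 6 + ψ x ≤ mean ψ h x := by
    unfold mean
    have h9 : (1 / (2 * h)) * (k * h ^ 3 / 3 + 2 * h * ψ x) = k * h ^ 2 / 6 + ψ x := by
      field_simp
      ring
    rw [← h9]
    exact mul_le_mul_of_nonneg_left e6 (by positivity)
  linarith

/-- For a null set `Z` there are small continuous convex functions with generalised second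
derivative `∞` on `Z`. -/
theorem exists_psi (Z : Set ℝ) (hZ : volume Z = 0) (a b : ℝ) (hab : a < b) {η : ℝ} (hη : 0 < η) :
    ∃ ψ : ℝ → ℝ, Continuous ψ ∧ (∀ x ∈ Icc a b, 0 ≤ ψ x ∧ ψ x ≤ η) ∧
      (∀ x h, 0 < h → 0 ≤ mean ψ h x - ψ x) ∧
      (∀ x ∈ Z, a < x → ∀ K : ℝ, ∀ᶠ h in 𝓝[>] (0 : ℝ), K ≤ 6 * (mean ψ h x - ψ x) / h ^ 2) := by
  have hba : 0 < b - a := by linarith
  set η' : ℝ := η / (b - a) with hη'
  have hη'0 : 0 < η' := by positivity
  -- open neighbourhoods
  have hG : ∀ n : ℕ, ∃ G : Set ℝ, Z ⊆ G ∧ IsOpen G ∧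
      volume G < ENNReal.ofReal (η' * (1 / 2) ^ (n + 1)) := by
    intro n
    have h1 : volume Z < ENNReal.ofReal (η' * (1 / 2) ^ (n + 1)) := by
      rw [hZ]
      exact ENNReal.ofReal_pos.2 (by positivity)
    obtain ⟨G, hG1, hG2, hG3⟩ := Z.exists_isOpen_lt_of_lt _ h1
    exact ⟨G, hG1, hG2, hG3⟩
  choose G hZG hGo hGv using hG
  set g : ℝ → ENNReal := fun s => ∑' n, (G n).indicator 1 s with hg
  have hgm : Measurable g := by
    apply Measurable.tsum
    intro n
    exact measurable_one.indicator (hGo n).measurableSet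
  have hgi : ∫⁻ s, g s ≤ ENNReal.ofReal η' := by
    rw [hg, lintegral_tsum (fun n => (measurable_one.indicator (hGo n).measurableSet).aemeasurable)]
    have h1 : ∀ n, ∫⁻ s, (G n).indicator 1 s = volume (G n) := fun n =>
      lintegral_indicator_one (hGo n).measurableSet
    simp only [h1]
    calc ∑' n, volume (G n) ≤ ∑' n : ℕ, ENNReal.ofReal (η' * (1 / 2) ^ (n + 1)) :=
          ENNReal.tsum_le_tsum fun n => (hGv n).le
      _ = ENNReal.ofReal (∑' n : ℕ, η' * (1 / 2) ^ (n + 1)) := by
          rw [ENNReal.ofReal_tsum_of_nonneg (fun n => by positivity)]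
          have : Summable fun n : ℕ => (1 / 2 : ℝ) ^ n := summable_geometric_two
          exact ((summable_nat_add_iff 1).2 this).mul_left η'
      _ = ENNReal.ofReal η' := by
          congr 1
          rw [tsum_mul_left]
          have h3 : ∑' n : ℕ, (1 / 2 : ℝ) ^ (n + 1) = 1 := by
            simp only [pow_succ]
            rw [tsum_mul_right, tsum_geometric_two]
            norm_num
          rw [h3, mul_one]
  have hfin : ∀ s : Set ℝ, ∫⁻ t in s, g t ≠ ⊤ := fun s =>
    ne_top_of_le_ne_top ENNReal.ofReal_ne_top ((setLIntegral_le_lintegral s g).trans hgi)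
  set φ : ℝ → ℝ := fun t => (∫⁻ s in Ioc a t, g s).toReal with hφ
  have hφm : Monotone φ := by
    intro s t hst
    exact ENNReal.toReal_mono (hfin _) (lintegral_mono_set (Ioc_subset_Ioc_right hst))
  have hφ0 : ∀ t, 0 ≤ φ t := fun t => ENNReal.toReal_nonneg
  have hφ1 : ∀ t, φ t ≤ η' := by
    intro t
    have h1 : ∫⁻ s in Ioc a t, g s ≤ ENNReal.ofReal η' :=
      (setLIntegral_le_lintegral _ g).trans hgi
    have h2 := ENNReal.toReal_mono ENNReal.ofReal_ne_top h1
    rwa [ENNReal.toReal_ofReal hη'0.le] at h2
  have hint : ∀ p q : ℝ, IntervalIntegrable φ volume p q := fun p q => hφm.intervalIntegrable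
  refine ⟨fun y => ∫ t in a..y, φ t, intervalIntegral.continuous_primitive hint a, ?_, ?_, ?_⟩
  · intro x hx
    constructor
    · exact intervalIntegral.integral_nonneg hx.1 fun t _ => hφ0 t
    · have h1 : ∫ t in a..x, φ t ≤ ∫ _t in a..x, η' :=
        intervalIntegral.integral_mono_on hx.1 (hint _ _) (by exact _root_.intervalIntegrable_const)
          fun t _ => hφ1 t
      rw [intervalIntegral.integral_const, smul_eq_mul] at h1
      have h2 : (x - a) * η' ≤ (b - a) * η' := mul_le_mul_of_nonneg_right (by linarith [hx.2]) hη'0.le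
      have h3 : (b - a) * η' = η := by
        rw [hη']
        field_simp
      linarith
  · intro x h hh
    have := mean_primitive hφm (a := a) (k := 0) (x := x) hh (fun t ht => by
      have : φ (x - t) ≤ φ (x + t) := hφm (by linarith [ht.1])
      linarith)
    linarith
  · intro x hx hax K
    obtain ⟨k, hk⟩ := exists_nat_ge K
    -- a neighbourhood contained in the first `k` open sets
    have hopen : IsOpen (⋂ n ∈ Finset.range k, G n) := isOpen_biInter_finset fun n _ => hGo n
    have hmem : x ∈ ⋂ n ∈ Finset.range k, G n := by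
      simp only [mem_iInter]
      intro n _
      exact hZG n hx
    obtain ⟨δ, hδ, hball⟩ := Metric.isOpen_iff.1 hopen x hmem
    have hev : ∀ᶠ h in 𝓝[>] (0 : ℝ), h ∈ Ioo 0 (min δ (x - a)) :=
      Ioo_mem_nhdsGT (by rw [lt_min_iff]; exact ⟨hδ, by linarith⟩)
    filter_upwards [hev] with h hh
    have hh0 : 0 < h := hh.1
    have hh1 := lt_min_iff.1 hh.2
    have key := mean_primitive hφm (a := a) (k := k) (x := x) hh0 (fun t ht => by
      have hsub : Ioc (x - t) (x + t) ⊆ ⋂ n ∈ Finset.range k, G n := by
        intro s hs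
        apply hball
        rw [Metric.mem_ball, Real.dist_eq, abs_lt]
        constructor <;> linarith [hs.1, hs.2, ht.2, hh1.1]
      have h1 : ∀ s ∈ Ioc (x - t) (x + t), (k : ENNReal) ≤ g s := by
        intro s hs
        have h2 := hsub hs
        simp only [mem_iInter, Finset.mem_range] at h2
        calc (k : ENNReal) = ∑ n ∈ Finset.range k, (G n).indicator 1 s := by
              rw [Finset.sum_congr rfl (fun n hn => by
                rw [indicator_of_mem (h2 n (Finset.mem_range.1 hn)), Pi.one_apply])]
              simp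
          _ ≤ g s := ENNReal.sum_le_tsum _
      have hsplit : ∫⁻ s in Ioc a (x + t), g s =
          (∫⁻ s in Ioc a (x - t), g s) + ∫⁻ s in Ioc (x - t) (x + t), g s := by
        rw [← lintegral_union measurableSet_Ioc (by
          rw [Set.disjoint_left]
          intro s hs hs'
          exact absurd hs'.1 (not_lt.2 hs.2)), Ioc_union_Ioc_eq_Ioc (by linarith [ht.2, hh1.2])
            (by linarith [ht.1])]
      have h3 : ENNReal.ofReal (2 * t * k) ≤ ∫⁻ s in Ioc (x - t) (x + t), g s := by
        calc ENNReal.ofReal (2 * t * k) = ∫⁻ _s in Ioc (x - t) (x + t), (k : ENNReal) := by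
              rw [setLIntegral_const, Real.volume_Ioc, ← ENNReal.ofReal_natCast,
                ← ENNReal.ofReal_mul (by positivity)]
              congr 1
              ring
          _ ≤ _ := setLIntegral_mono' measurableSet_Ioc h1
      have h4 : φ (x + t) = φ (x - t) + (∫⁻ s in Ioc (x - t) (x + t), g s).toReal := by
        simp only [hφ]
        rw [hsplit, ENNReal.toReal_add (hfin _) (hfin _)]
      have h5 := ENNReal.toReal_mono (hfin _) h3
      rw [ENNReal.toReal_ofReal (by have := ht.1; positivity)] at h5
      linarith)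
    rw [le_div_iff₀ (by positivity)]
    have : K * h ^ 2 ≤ k * h ^ 2 := mul_le_mul_of_nonneg_right hk (by positivity)
    linarith

end Pool.Agent.X126.SU
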