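import Pool.Agent.X126.SU.Psi
import Pool.Agent.X126.SU.Bump

/-!
# Trigonometric series with bounded partial sums that converge to zero almost everywhere
-/

set_option autoImplicit false

open MeasureTheory Filter Topology Set

namespace Pool.Agent.X126.SU

open Pool.Agent.Y249.SU

/-- Local chord inequality under a lower bound for the upper second derivative. -/
theorem le_chord' {F : ℝ → ℝ} (hF : Continuous F) {a b : ℝ} (hab : a < b)
    (hD : ∀ x ∈ Ioo a b, ∀ δ : ℝ, 0 < δ →
      ∃ᶠ h in 𝓝[>] (0 : ℝ), -δ < 6 * (mean F h x - F x) / h ^ 2)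
    {x : ℝ} (hx : x ∈ Set.Icc a b) :
    F x ≤ F a + (F b - F a) / (b - a) * (x - a) := by
  by_contra hcon
  push Not at hcon
  set k := (F b - F a) / (b - a) with hk
  set η := F x - (F a + k * (x - a)) with hη
  have hη0 : 0 < η := by linarith
  have hba : 0 < b - a := by linarith
  set ε := η / (2 * (b - a) ^ 2) with hε
  have hε0 : 0 < ε := by positivity
  set g : ℝ → ℝ := fun y => F y - F a - k * (y - a) + ε * ((y - a) * (y - b)) with hg
  have hgc : Continuous g := by
    rw [hg]
    fun_prop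
  obtain ⟨x0, hx0, hmax⟩ := isCompact_Icc.exists_isMaxOn (Set.nonempty_Icc.mpr hab.le)
    hgc.continuousOn (s := Set.Icc a b)
  have hgx : 0 < g x := by
    have h1 : (x - a) * (x - b) ≥ - (b - a) ^ 2 := by
      nlinarith [hx.1, hx.2]
    have h2 : ε * ((x - a) * (x - b)) ≥ - (η / 2) := by
      have : ε * (b - a) ^ 2 = η / 2 := by
        rw [hε]
        field_simp
      nlinarith
    simp only [hg]
    have : F x - F a - k * (x - a) = η := by rw [hη]; ring
    rw [this]
    linarith
  have hgx0 : 0 < g x0 := lt_of_lt_of_le hgx (hmax hx)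
  have hga : g a = 0 := by simp [hg]
  have hgb : g b = 0 := by
    simp only [hg, sub_self, mul_zero, add_zero]
    rw [hk]
    field_simp
    ring
  have hx0a : a < x0 := lt_of_le_of_ne hx0.1 (fun h => by rw [← h, hga] at hgx0; exact lt_irrefl _ hgx0)
  have hx0b : x0 < b := lt_of_le_of_ne hx0.2 (fun h => by rw [h, hgb] at hgx0; exact lt_irrefl _ hgx0)
  have hsmall : ∀ᶠ h in 𝓝[>] (0 : ℝ), 6 * (mean F h x0 - F x0) / h ^ 2 ≤ - (2 * ε) := by
    have h1 : ∀ᶠ h in 𝓝[>] (0 : ℝ), h < min (x0 - a) (b - x0) := by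
      apply eventually_nhdsWithin_of_eventually_nhds
      exact eventually_lt_nhds (by
        rw [lt_min_iff]
        constructor <;> linarith)
    filter_upwards [h1, self_mem_nhdsWithin] with h hh hh0
    have hh0 : 0 < h := hh0
    rw [lt_min_iff] at hh
    have h2 := mean_max hF (h := h) (x := x0) (k := k) (c := F a) (a := a) (b := b) (ε := ε) (M := g x0)
      hh0 (fun y hy => hmax (show y ∈ Set.Icc a b from ⟨by linarith [hy.1, hh.1], by linarith [hy.2, hh.2]⟩)) rfl
    rw [div_le_iff₀ (by positivity)]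
    nlinarith
  have h3 := hD x0 ⟨hx0a, hx0b⟩ (2 * ε) (by positivity)
  exact h3 (hsmall.mono fun h hh => not_lt.2 hh)

/-- The chord inequality when the derivative is zero almost everywhere and finite everywhere. -/
theorem le_chord_ae {F : ℝ → ℝ} (hF : Continuous F)
    (hfin : ∀ x, ∃ B : ℝ, ∀ h, 0 < h → -B ≤ 6 * (mean F h x - F x) / h ^ 2)
    (hae : ∀ᵐ x, Tendsto (fun h => 6 * (mean F h x - F x) / h ^ 2) (𝓝[>] 0) (𝓝 0)) {a b : ℝ}
    (hab : a < b) {x : ℝ} (hx : x ∈ Set.Icc a b) :
    F x ≤ F a + (F b - F a) / (b - a) * (x - a) := by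
  set Z : Set ℝ := {x | ¬ Tendsto (fun h => 6 * (mean F h x - F x) / h ^ 2) (𝓝[>] 0) (𝓝 0)} with hZ
  have hZ0 : volume Z = 0 := hae
  apply le_of_forall_pos_le_add
  intro ε hε
  obtain ⟨ψ, hψc, hψb, hψ0, hψZ⟩ := exists_psi Z hZ0 a b hab (half_pos hε)
  have hmean : ∀ y h, mean (fun t => F t + ψ t) h y = mean F h y + mean ψ h y := by
    intro y h
    unfold mean
    rw [intervalIntegral.integral_add (hF.intervalIntegrable _ _) (hψc.intervalIntegrable _ _)]
    ring
  have hsum : ∀ y h, 6 * (mean (fun t => F t + ψ t) h y - (F y + ψ y)) / h ^ 2 =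
      6 * (mean F h y - F y) / h ^ 2 + 6 * (mean ψ h y - ψ y) / h ^ 2 := by
    intro y h
    rw [hmean]
    ring
  have key := le_chord' (F := fun t => F t + ψ t) (hF.add hψc) hab (by
    intro y hy δ hδ
    apply Eventually.frequently
    by_cases hyZ : y ∈ Z
    · obtain ⟨B, hB⟩ := hfin y
      filter_upwards [hψZ y hyZ hy.1 B, self_mem_nhdsWithin] with h h1 h2
      rw [hsum]
      have := hB h h2
      linarith
    · have hy' : Tendsto (fun h => 6 * (mean F h y - F y) / h ^ 2) (𝓝[>] 0) (𝓝 0) := by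
        by_contra hcon
        exact hyZ hcon
      filter_upwards [hy'.eventually_const_lt (show -δ < 0 by linarith), self_mem_nhdsWithin]
        with h h1 h2
      rw [hsum]
      have h3 : 0 ≤ 6 * (mean ψ h y - ψ y) / h ^ 2 := by
        have := hψ0 y h h2
        have h4 : (0 : ℝ) < h := h2
        positivity
      linarith) hx
  have hba : 0 < b - a := by linarith
  have ha := hψb a (left_mem_Icc.2 hab.le)
  have hb := hψb b (right_mem_Icc.2 hab.le)
  have hxx := hψb x hx
  have h5 : F a + ψ a + (F b + ψ b - (F a + ψ a)) / (b - a) * (x - a) =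
      F a + (F b - F a) / (b - a) * (x - a) +
        (ψ a * ((b - x) / (b - a)) + ψ b * ((x - a) / (b - a))) := by
    field_simp
    ring
  rw [h5] at key
  have t1 : 0 ≤ (b - x) / (b - a) := div_nonneg (by linarith [hx.2]) hba.le
  have t2 : 0 ≤ (x - a) / (b - a) := div_nonneg (by linarith [hx.1]) hba.le
  have t3 : (b - x) / (b - a) + (x - a) / (b - a) = 1 := by
    field_simp
    ring
  have h6 : ψ a * ((b - x) / (b - a)) + ψ b * ((x - a) / (b - a)) ≤ ε / 2 := by
    calc ψ a * ((b - x) / (b - a)) + ψ b * ((x - a) / (b - a)) ≤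
        (ε / 2) * ((b - x) / (b - a)) + (ε / 2) * ((x - a) / (b - a)) :=
          add_le_add (mul_le_mul_of_nonneg_right ha.2 t1) (mul_le_mul_of_nonneg_right hb.2 t2)
      _ = (ε / 2) * ((b - x) / (b - a) + (x - a) / (b - a)) := by ring
      _ = ε / 2 := by rw [t3, mul_one]
  linarith [hxx.1]

theorem affine_ae {F : ℝ → ℝ} (hF : Continuous F)
    (hfin : ∀ x, ∃ B : ℝ, ∀ h, 0 < h → |6 * (mean F h x - F x) / h ^ 2| ≤ B)
    (hae : ∀ᵐ x, Tendsto (fun h => 6 * (mean F h x - F x) / h ^ 2) (𝓝[>] 0) (𝓝 0)) :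
    ∃ α β : ℝ, ∀ x, F x = α * x + β := by
  have hnegm : ∀ x h, 6 * (mean (fun y => - F y) h x - (- F x)) / h ^ 2 =
      - (6 * (mean F h x - F x) / h ^ 2) := by
    intro x h
    unfold mean
    rw [intervalIntegral.integral_neg]
    ring
  have key : ∀ a b x : ℝ, a < b → x ∈ Set.Icc a b → F x = F a + (F b - F a) / (b - a) * (x - a) := by
    intro a b x hab hx
    apply le_antisymm (le_chord_ae hF (fun x => (hfin x).imp fun B hB h hh => by
      have := (abs_le.1 (hB h hh)).1
      linarith) hae hab hx)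
    have h1 := le_chord_ae (F := fun y => - F y) hF.neg (fun x => (hfin x).imp fun B hB h hh => by
      rw [hnegm]
      have := (abs_le.1 (hB h hh)).2
      linarith) (by
        filter_upwards [hae] with x hx
        simp only [hnegm]
        simpa using hx.neg) hab hx
    have h2 : (-F b - -F a) / (b - a) = - ((F b - F a) / (b - a)) := by ring
    rw [h2] at h1
    linarith
  refine ⟨F 1 - F 0, F 0, fun x => ?_⟩
  rcases le_or_gt x 1 with h1 | h1
  · rcases le_or_gt 0 x with h0 | h0
    · have := key 0 1 x one_pos ⟨h0, h1⟩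
      simp only [sub_zero, div_one] at this
      linarith
    · have := key x 1 0 (by linarith) ⟨h0.le, zero_le_one⟩
      have hx : (0 : ℝ) < 1 - x := by linarith
      have h3 : (F 1 - F x) / (1 - x) * (0 - x) * (1 - x) = (F 1 - F x) * (0 - x) := by
        field_simp
      have h4 : F 0 * (1 - x) = F x * (1 - x) + (F 1 - F x) * (0 - x) := by
        rw [this, add_mul, h3]
      linarith
  · have := key 0 x 1 (by linarith) ⟨zero_le_one, h1.le⟩
    have hx : (0 : ℝ) < x := by linarith
    simp only [sub_zero] at this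
    have h3 : (F x - F 0) / x * 1 * x = F x - F 0 := by
      field_simp
    have h4 : F 1 * x = F 0 * x + (F x - F 0) := by
      rw [this, add_mul, h3]
    linarith

theorem bound_second {c : ℤ → ℂ} {B : ℝ} (hB : ∀ n, ‖c n‖ ≤ B) {x K : ℝ}
    (hx : ∀ N, ‖S c N x‖ ≤ K) {h : ℝ} (hh : 0 < h) :
    ‖((6 / h ^ 2 : ℝ) : ℂ) * (cmean (FF c) h x - FF c x)‖ ≤ K := by
  have hpi := Real.pi_pos
  have hs := second_diff hB x hh
  have h1 := hs.tendsto_sum_nat.comp (tendsto_add_atTop_nat 1)
  apply le_of_tendsto h1.norm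
  refine Eventually.of_forall fun N => ?_
  simp only [Function.comp]
  have hw : Antitone (fun n : ℕ => v (2 * Real.pi * n * h)) := by
    intro m n hmn
    apply v_anti (by positivity)
    have : (m : ℝ) ≤ n := by exact_mod_cast hmn
    gcongr
  have hw0 : ∀ n : ℕ, 0 ≤ v (2 * Real.pi * n * h) := fun n => v_nonneg (by positivity)
  have h2 := partial_bound (A := fun n => A c n x) hw hw0 (B := K) (ε := K)
    (fun n => by rw [← S_eq]; exact hx n) (n0 := 0) (fun n _ => by rw [← S_eq]; exact hx n)
    (N := N) (Nat.zero_le _)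
  refine h2.trans (le_of_eq ?_)
  simp [v_zero]

theorem affine_FF_ae {c : ℤ → ℂ} {B : ℝ} (hB : ∀ n, ‖c n‖ ≤ B)
    (hbd : ∀ x, ∃ K, ∀ N, ‖S c N x‖ ≤ K)
    (hae : ∀ᵐ x, Tendsto (fun N : ℕ => S c N x) atTop (𝓝 0)) :
    ∃ α β : ℂ, ∀ x : ℝ, FF c x = α * x + β := by
  have hcont := continuous_FF hB
  have hre : ∀ x h, mean (fun y => (FF c y).re) h x = (cmean (FF c) h x).re := by
    intro x h
    unfold mean cmean
    rw [Complex.re_ofReal_mul]
    congr 1
    exact Complex.reCLM.intervalIntegral_comp_comm (hcont.intervalIntegrable _ _)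
  have him : ∀ x h, mean (fun y => (FF c y).im) h x = (cmean (FF c) h x).im := by
    intro x h
    unfold mean cmean
    rw [Complex.im_ofReal_mul]
    congr 1
    exact Complex.imCLM.intervalIntegral_comp_comm (hcont.intervalIntegrable _ _)
  have ere : ∀ x h, 6 * (mean (fun y => (FF c y).re) h x - (FF c x).re) / h ^ 2 =
      (((6 / h ^ 2 : ℝ) : ℂ) * (cmean (FF c) h x - FF c x)).re := by
    intro x h
    rw [Complex.re_ofReal_mul, Complex.sub_re, hre]
    ring
  have eim : ∀ x h, 6 * (mean (fun y => (FF c y).im) h x - (FF c x).im) / h ^ 2 =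
      (((6 / h ^ 2 : ℝ) : ℂ) * (cmean (FF c) h x - FF c x)).im := by
    intro x h
    rw [Complex.im_ofReal_mul, Complex.sub_im, him]
    ring
  obtain ⟨α1, β1, h1⟩ := affine_ae (F := fun y => (FF c y).re)
    (Complex.continuous_re.comp hcont) (fun x => by
      obtain ⟨K, hK⟩ := hbd x
      refine ⟨K, fun h hh => ?_⟩
      rw [ere]
      exact (Complex.abs_re_le_norm _).trans (bound_second hB hK hh)) (by
      filter_upwards [hae] with x hx
      simp only [ere]
      exact (Complex.continuous_re.tendsto 0).comp (tendsto_second hB hx))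
  obtain ⟨α2, β2, h2⟩ := affine_ae (F := fun y => (FF c y).im)
    (Complex.continuous_im.comp hcont) (fun x => by
      obtain ⟨K, hK⟩ := hbd x
      refine ⟨K, fun h hh => ?_⟩
      rw [eim]
      exact (Complex.abs_im_le_norm _).trans (bound_second hB hK hh)) (by
      filter_upwards [hae] with x hx
      simp only [eim]
      exact (Complex.continuous_im.tendsto 0).comp (tendsto_second hB hx))
  refine ⟨⟨α1, α2⟩, ⟨β1, β2⟩, fun x => ?_⟩
  apply Complex.ext
  · rw [h1]
    simp
  · rw [h2]
    simp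

/-- A trigonometric series with bounded coefficients, bounded partial sums at every point, which
converges to zero almost everywhere vanishes. -/
theorem vallee {c : ℤ → ℂ} {B : ℝ} (hB : ∀ n, ‖c n‖ ≤ B)
    (hbd : ∀ x, ∃ K, ∀ N, ‖S c N x‖ ≤ K)
    (hae : ∀ᵐ x, Tendsto (fun N : ℕ => S c N x) atTop (𝓝 0)) (n : ℤ) : c n = 0 := by
  obtain ⟨α, β, hF⟩ := affine_FF_ae hB hbd hae
  have hQ : ∀ x : ℝ, Q c x = c 0 * ((x ^ 2 / 2 : ℝ) : ℂ) - α * x - β := by
    intro x
    have := hF x
    unfold FF at this
    rw [sub_sub, ← this]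
    ring
  have hper : ∀ x : ℝ, c 0 * ((x : ℂ) + 1 / 2) = α := by
    intro x
    have h1 := Q_add_one c x
    rw [hQ, hQ] at h1
    push_cast at h1
    linear_combination h1
  have hc0 : c 0 = 0 := by
    have h1 := hper 0
    have h2 := hper 1
    push_cast at h1 h2
    linear_combination h2 - h1
  have hα : α = 0 := by
    rw [← hper 0, hc0, zero_mul]
  have hQc : ∀ x : ℝ, Q c x = -β := by
    intro x
    rw [hQ, hc0, hα]
    ring
  -- the coefficients of the constant function
  have key : ∀ m : ℕ, ∀ s : ℤ, (s = 1 ∨ s = -1) → c (s * ((m + 1 : ℕ) : ℤ)) = 0 := by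
    intro m s hs
    set k : ℤ := s * ((m + 1 : ℕ) : ℤ) with hk
    have hk0 : k ≠ 0 := by
      rcases hs with h | h <;> rw [hk, h] <;> push_cast <;> omega
    have hEs : ∀ (n : ℕ) (y : ℝ), A c (n + 1) y * E (-k) y =
        c ((n + 1 : ℕ) : ℤ) * E (((n + 1 : ℕ) : ℤ) + -k) y +
        c (-((n + 1 : ℕ) : ℤ)) * E (-((n + 1 : ℕ) : ℤ) + -k) y := by
      intro n y
      rw [A_succ, E_add_left, E_add_left]
      ring
    have hint : ∀ n : ℕ, ∫ y in (0 : ℝ)..1, (q n : ℂ) * (A c (n + 1) y * E (-k) y) =
        if n = m then (q m : ℂ) * c k else 0 := by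
      intro n
      simp only [hEs]
      rw [intervalIntegral.integral_const_mul, intervalIntegral.integral_add,
        intervalIntegral.integral_const_mul, intervalIntegral.integral_const_mul]
      · split_ifs with hnm
        · subst hnm
          rcases hs with h | h
          · have e1 : ((n + 1 : ℕ) : ℤ) + -k = 0 := by rw [hk, h]; ring
            have e2 : -((n + 1 : ℕ) : ℤ) + -k ≠ 0 := by rw [hk, h]; push_cast; omega
            have e3 : k = ((n + 1 : ℕ) : ℤ) := by rw [hk, h]; ring
            rw [e1, integral_E_zero, integral_E_unit _ e2, e3]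
            ring
          · have e1 : ((n + 1 : ℕ) : ℤ) + -k ≠ 0 := by rw [hk, h]; push_cast; omega
            have e2 : -((n + 1 : ℕ) : ℤ) + -k = 0 := by rw [hk, h]; ring
            have e3 : k = -((n + 1 : ℕ) : ℤ) := by rw [hk, h]; ring
            rw [e2, integral_E_zero, integral_E_unit _ e1, e3]
            ring
        · have hnm' : (n : ℤ) ≠ m := by exact_mod_cast hnm
          have e1 : ((n + 1 : ℕ) : ℤ) + -k ≠ 0 := by
            rcases hs with h | h <;> rw [hk, h] <;> push_cast <;> omega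
          have e2 : -((n + 1 : ℕ) : ℤ) + -k ≠ 0 := by
            rcases hs with h | h <;> rw [hk, h] <;> push_cast <;> omega
          rw [integral_E_unit _ e1, integral_E_unit _ e2]
          ring
      · exact ((continuous_E _).const_mul _).intervalIntegrable _ _
      · exact ((continuous_E _).const_mul _).intervalIntegrable _ _
    have h1 := intervalIntegral.hasSum_integral_of_dominated_convergence
      (μ := volume) (a := (0 : ℝ)) (b := 1)
      (F := fun (n : ℕ) (y : ℝ) => (q n : ℂ) * (A c (n + 1) y * E (-k) y))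
      (f := fun y => Q c y * E (-k) y)
      (fun (n : ℕ) (_ : ℝ) => q n * (2 * B))
      (fun n => (((continuous_A c (n + 1)).mul (continuous_E _)).const_mul _).aestronglyMeasurable)
      (fun n => Eventually.of_forall fun y _ => by
        rw [← mul_assoc, norm_mul, norm_E, mul_one]
        exact norm_term_le hB n y)
      (Eventually.of_forall fun y _ => summable_q.mul_right _)
      (by exact _root_.intervalIntegrable_const)
      (Eventually.of_forall fun y _ => by
        have := (hasSum_Q hB y).mul_right (E (-k) y)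
        simpa only [mul_assoc] using this)
    simp only [hint] at h1
    have h2 := h1.unique (hasSum_ite_eq m ((q m : ℂ) * c k))
    have h3 : ∫ y in (0 : ℝ)..1, Q c y * E (-k) y = 0 := by
      simp only [hQc]
      rw [intervalIntegral.integral_const_mul, integral_E_unit _ (by omega), mul_zero]
    rw [h3] at h2
    have h4 : (q m : ℂ) ≠ 0 := Complex.ofReal_ne_zero.mpr (q_pos m).ne'
    rcases mul_eq_zero.mp h2.symm with h5 | h5
    · exact absurd h5 h4
    · exact h5
  rcases lt_trichotomy n 0 with h | h | h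
  · obtain ⟨m, hm⟩ : ∃ m : ℕ, n = -1 * ((m + 1 : ℕ) : ℤ) := ⟨(-n - 1).toNat, by push_cast; omega⟩
    rw [hm]
    exact key m (-1) (Or.inr rfl)
  · rw [h, hc0]
  · obtain ⟨m, hm⟩ : ∃ m : ℕ, n = 1 * ((m + 1 : ℕ) : ℤ) := ⟨(n - 1).toNat, by push_cast; omega⟩
    rw [hm]
    exact key m 1 (Or.inl rfl)

end Pool.Agent.X126.SU
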